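import Mathlib

/-!
# Counting the subgroups between a subgroup of finite index and the group
-/

set_option autoImplicit false

namespace Pool.Agent.P8H25.CSP

open Subgroup

variable {A : Type*} [Group A]

/-- A subgroup `K ≥ M` with `[K : M] < 2 ^ (k + 1)` is generated by `M` and `k` elements. -/
lemma gen : ∀ (k : ℕ) (M K : Subgroup A), M ≤ K → M.relIndex K ≠ 0 → M.relIndex K < 2 ^ (k + 1) →
    ∃ t : Fin k → A, K = M ⊔ closure (Set.range t) := by
  intro k
  induction k with
  | zero =>
    intro M K hMK h0 h1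
    refine ⟨Fin.elim0, ?_⟩
    have h2 : M.relIndex K = 1 := by
      have : M.relIndex K < 2 := by simpa using h1
      omega
    have h3 : K ≤ M := relIndex_eq_one.1 h2
    rw [Set.range_eq_empty, Subgroup.closure_empty, sup_bot_eq]
    exact le_antisymm h3 hMK
  | succ k ih =>
    intro M K hMK h0 h1
    by_cases hK : K ≤ M
    · refine ⟨fun _ => 1, ?_⟩
      have : closure (Set.range (fun _ : Fin (k + 1) => (1 : A))) = ⊥ := by
        rw [closure_eq_bot_iff]
        rintro _ ⟨i, rfl⟩
        rfl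
      rw [this, sup_bot_eq]
      exact le_antisymm hK hMK
    · obtain ⟨x, hxK, hxM⟩ := SetLike.not_le_iff_exists.1 hK
      set M' : Subgroup A := M ⊔ closure {x} with hM'
      have hMM' : M ≤ M' := le_sup_left
      have hM'K : M' ≤ K := by
        refine sup_le hMK ?_
        rw [closure_le]
        rintro _ rfl
        exact hxK
      have hxM' : x ∈ M' := (le_sup_right : closure {x} ≤ M') (subset_closure rfl)
      have hmul := relIndex_mul_relIndex M M' K hMM' hM'K
      have ha0 : M.relIndex M' ≠ 0 := by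
        intro h
        rw [h, zero_mul] at hmul
        exact h0 hmul.symm
      have hb0 : M'.relIndex K ≠ 0 := by
        intro h
        rw [h, mul_zero] at hmul
        exact h0 hmul.symm
      have ha1 : M.relIndex M' ≠ 1 := by
        intro h
        exact hxM (relIndex_eq_one.1 h hxM')
      have hlt : M'.relIndex K < 2 ^ (k + 1) := by
        by_contra hcon
        push Not at hcon
        have h2 : 2 ≤ M.relIndex M' := by omega
        have h3 : 2 * 2 ^ (k + 1) ≤ M.relIndex M' * M'.relIndex K := Nat.mul_le_mul h2 hcon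
        rw [hmul] at h3
        have h4 : 2 ^ (k + 1 + 1) = 2 * 2 ^ (k + 1) := by ring
        omega
      obtain ⟨t, ht⟩ := ih M' K hM'K hb0 hlt
      refine ⟨Fin.cons x t, ?_⟩
      rw [Fin.range_cons, Set.insert_eq, Subgroup.closure_union, ← sup_assoc, ← hM']
      exact ht

/-- The subgroup generated by `M` and a tuple depends only on the cosets of the members of the tuple. -/
lemma sup_congr (M : Subgroup A) {k : ℕ} (t t' : Fin k → A) (h : ∀ i, (t i)⁻¹ * t' i ∈ M) :
    M ⊔ closure (Set.range t') ≤ M ⊔ closure (Set.range t) := by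
  refine sup_le le_sup_left ?_
  rw [closure_le]
  rintro _ ⟨i, rfl⟩
  have h1 : t i ∈ M ⊔ closure (Set.range t) :=
    (le_sup_right : closure (Set.range t) ≤ _) (subset_closure ⟨i, rfl⟩)
  have h2 : (t i)⁻¹ * t' i ∈ M ⊔ closure (Set.range t) := (le_sup_left : M ≤ _) (h i)
  have h3 := mul_mem h1 h2
  rwa [mul_inv_cancel_left] at h3

/-- There are at most `[A : M] ^ (log₂ d)` subgroups `K ≥ M` with `[K : M] ≤ d`. -/
lemma overgroups (M : Subgroup A) (hM : M.index ≠ 0) (d : ℕ) (hd : d ≠ 0) :
    {K : Subgroup A | M ≤ K ∧ M.relIndex K ≤ d}.encard ≤ ((M.index ^ (Nat.log 2 d) : ℕ) : ℕ∞) := by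
  classical
  have hfi : M.FiniteIndex := ⟨hM⟩
  have hfin : Finite (A ⧸ M) := inferInstance
  set k := Nat.log 2 d with hk
  let Φ : (Fin k → A ⧸ M) → Subgroup A := fun q =>
    M ⊔ closure (Set.range (fun i => (q i).out))
  have hsub : {K : Subgroup A | M ≤ K ∧ M.relIndex K ≤ d} ⊆ Φ '' Set.univ := by
    rintro K ⟨hMK, hKd⟩
    have h0 : M.relIndex K ≠ 0 := fun h => hM (index_eq_zero_of_relIndex_eq_zero h)
    obtain ⟨t, ht⟩ := gen k M K hMK h0 (lt_of_le_of_lt hKd (Nat.lt_pow_succ_log_self (by norm_num) d))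
    refine ⟨fun i => (t i : A ⧸ M), trivial, ?_⟩
    show M ⊔ closure (Set.range (fun i => ((t i : A ⧸ M)).out)) = K
    rw [ht]
    apply le_antisymm
    · apply sup_congr
      intro i
      exact QuotientGroup.eq.1 (QuotientGroup.out_eq' (t i : A ⧸ M)).symm
    · apply sup_congr
      intro i
      exact QuotientGroup.eq.1 (QuotientGroup.out_eq' (t i : A ⧸ M))
  refine (Set.encard_le_encard hsub).trans ((Set.encard_image_le Φ Set.univ).trans ?_)
  rw [Set.encard_univ, ENat.card_eq_coe_natCard, Nat.card_fun, Nat.card_fin]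
  exact le_of_eq rfl

/-- An upper bound for the number of elements of a union. -/
lemma encard_biUnion_le {ι α : Type*} (S : Set ι) (F : ι → Set α) (b : ℕ) (hb : b ≠ 0)
    (h : ∀ i ∈ S, (F i).encard ≤ (b : ℕ∞)) : (⋃ i ∈ S, F i).encard ≤ (b : ℕ∞) * S.encard := by
  classical
  by_cases hS : S.Finite
  · induction S, hS using Set.Finite.induction_on with
    | empty => simp
    | @insert a s ha hs ih =>
      rw [Set.biUnion_insert, Set.encard_insert_of_notMem ha, mul_add, mul_one]
      refine (Set.encard_union_le _ _).trans ?_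
      rw [add_comm]
      exact add_le_add (ih (fun i hi => h i (Set.mem_insert_of_mem _ hi))) (h a (Set.mem_insert _ _))
  · rw [Set.Infinite.encard_eq hS, ENat.mul_top]
    · exact le_top
    · exact_mod_cast hb

/-- **Frequency.** Let `N` be a subgroup of index `d` which does not have a property `P` which passes to
larger subgroups, and let `𝓕` be a family of subgroups with `K ∩ N ∈ 𝓕` for `K ∈ 𝓕`. Then the number of
the subgroups `K ∈ 𝓕` of index at most `n` is at most `(d n) ^ (log₂ d)` times the number of the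
subgroups `K ∈ 𝓕` of index at most `d n` which do not have the property `P`. -/
theorem frequency (P : Subgroup A → Prop) (hP : ∀ H K : Subgroup A, H ≤ K → P H → P K)
    (N : Subgroup A) (hN0 : N.index ≠ 0) (hN : ¬ P N) (𝓕 : Set (Subgroup A))
    (h𝓕 : ∀ K ∈ 𝓕, K ⊓ N ∈ 𝓕) (n : ℕ) :
    {K : Subgroup A | K ∈ 𝓕 ∧ K.index ≠ 0 ∧ K.index ≤ n}.encard ≤
      (((N.index * n) ^ Nat.log 2 N.index : ℕ) : ℕ∞) *
        {K : Subgroup A | K ∈ 𝓕 ∧ ¬ P K ∧ K.index ≠ 0 ∧ K.index ≤ N.index * n}.encard := by
  classical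
  rcases Nat.eq_zero_or_pos n with rfl | hn
  · have : {K : Subgroup A | K ∈ 𝓕 ∧ K.index ≠ 0 ∧ K.index ≤ 0} = ∅ := by
      ext K
      simp only [Set.mem_ofPred_eq, Set.mem_empty_iff_false, iff_false]
      rintro ⟨_, h1, h2⟩
      omega
    rw [this, Set.encard_empty]
    exact zero_le
  set S := {K : Subgroup A | K ∈ 𝓕 ∧ ¬ P K ∧ K.index ≠ 0 ∧ K.index ≤ N.index * n} with hS
  have hsub : {K : Subgroup A | K ∈ 𝓕 ∧ K.index ≠ 0 ∧ K.index ≤ n} ⊆
      ⋃ M ∈ S, {K : Subgroup A | M ≤ K ∧ M.relIndex K ≤ N.index} := by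
    rintro K ⟨hK𝓕, hK0, hKn⟩
    rw [Set.mem_iUnion₂]
    refine ⟨K ⊓ N, ⟨h𝓕 K hK𝓕, fun h => hN (hP _ _ inf_le_right h), index_inf_ne_zero hK0 hN0, ?_⟩,
      inf_le_left, ?_⟩
    · refine (index_inf_le).trans ?_
      rw [mul_comm]
      exact Nat.mul_le_mul_left _ hKn
    · rw [inf_relIndex_left]
      have h1 : N.relIndex (⊤ : Subgroup A) ≠ 0 := by rwa [relIndex_top_right]
      have h2 := relIndex_le_of_le_right (H := N) (K := K) (L := ⊤) le_top h1
      rwa [relIndex_top_right] at h2
  refine (Set.encard_le_encard hsub).trans ?_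
  refine encard_biUnion_le S _ _ ?_ ?_
  · have : 0 < N.index * n := Nat.mul_pos (Nat.pos_of_ne_zero hN0) hn
    positivity
  · rintro M ⟨_, _, hM0, hMn⟩
    refine (overgroups M hM0 N.index hN0).trans ?_
    exact_mod_cast Nat.pow_le_pow_left hMn _

end Pool.Agent.P8H25.CSP
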