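import Mathlib

/-!
# Number of primes
-/

set_option autoImplicit false

namespace Pool.Agent.P8H25.CSP

open Filter Real

lemma pi_lower : ∀ᶠ n : ℕ in atTop, (n : ℝ) ^ (3 / 4 : ℝ) / 8 ≤ (Nat.primeCounting n : ℝ) := by
  have h1 : ∀ᶠ n : ℕ in atTop, Real.log ((n : ℝ) + 1) ≤ (Real.log 2 - 1 / 2) * n := by
    have h2 : Tendsto (fun n : ℕ => Real.log ((n : ℝ) + 1) / ((n : ℝ) + 1)) atTop (nhds 0) := by
      have h3 : Tendsto (fun x : ℝ => Real.log x / x) atTop (nhds 0) := by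
        have := Real.isLittleO_log_id_atTop.tendsto_div_nhds_zero
        simpa using this
      exact h3.comp (tendsto_atTop_add_const_right _ 1 tendsto_natCast_atTop_atTop)
    have h4 : (0 : ℝ) < (Real.log 2 - 1 / 2) / 2 := by
      have := Real.log_two_gt_d9
      linarith
    filter_upwards [h2.eventually (gt_mem_nhds h4), eventually_ge_atTop 1] with n hn hn1
    have hn1' : (1 : ℝ) ≤ n := by exact_mod_cast hn1
    have h5 : (0 : ℝ) < (n : ℝ) + 1 := by linarith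
    rw [div_lt_iff₀ h5] at hn
    nlinarith
  filter_upwards [h1, eventually_ge_atTop 2] with n hn hn2
  have hn2' : (2 : ℝ) ≤ n := by exact_mod_cast hn2
  have hn0 : (0 : ℝ) < n := by linarith
  have hlog : 0 < Real.log n := Real.log_pos (by linarith)
  have h5 := Chebyshev.pi_ge n
  refine le_trans ?_ h5
  rw [le_div_iff₀ hlog]
  have h6 : Real.log n ≤ (n : ℝ) ^ (1 / 4 : ℝ) / (1 / 4) := Real.log_le_rpow_div hn0.le (by norm_num)
  have h7 : (n : ℝ) ^ (3 / 4 : ℝ) * (n : ℝ) ^ (1 / 4 : ℝ) = n := by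
    rw [← Real.rpow_add hn0]
    norm_num
  have h8 : 0 ≤ (n : ℝ) ^ (3 / 4 : ℝ) := by positivity
  calc (n : ℝ) ^ (3 / 4 : ℝ) / 8 * Real.log n ≤ (n : ℝ) ^ (3 / 4 : ℝ) / 8 * ((n : ℝ) ^ (1 / 4 : ℝ) / (1 / 4)) :=
        mul_le_mul_of_nonneg_left h6 (by positivity)
    _ = ((n : ℝ) ^ (3 / 4 : ℝ) * (n : ℝ) ^ (1 / 4 : ℝ)) / 2 := by ring
    _ = (n : ℝ) / 2 := by rw [h7]
    _ ≤ n * Real.log 2 - Real.log (n + 1) := by linarith

/-- The square of half the number of the odd primes up to `n` is more than any multiple of `n`. -/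
theorem half_sq (K : ℕ) : ∃ n₀ : ℕ, ∀ n : ℕ, n₀ ≤ n →
    K * (n + 1) ≤ ((Nat.primeCounting n - 1) / 2) * ((Nat.primeCounting n - 1) / 2) := by
  have h1 : ∀ᶠ n : ℕ in atTop, (64 * ((K : ℝ) + 1)) ≤ (n : ℝ) ^ (1 / 4 : ℝ) := by
    have : Tendsto (fun n : ℕ => (n : ℝ) ^ (1 / 4 : ℝ)) atTop atTop :=
      (tendsto_rpow_atTop (by norm_num)).comp tendsto_natCast_atTop_atTop
    exact this.eventually_ge_atTop _
  obtain ⟨n₀, hn₀⟩ := eventually_atTop.1 (pi_lower.and (h1.and (eventually_ge_atTop 1)))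
  refine ⟨n₀, fun n hn => ?_⟩
  obtain ⟨h2, h3, h4⟩ := hn₀ n hn
  have hn1 : (1 : ℝ) ≤ n := by exact_mod_cast h4
  have hn0 : (0 : ℝ) < n := by linarith
  set x := (n : ℝ) ^ (1 / 4 : ℝ) with hx
  have hx0 : 0 < x := by positivity
  have hx4 : x ^ 4 = n := by
    rw [hx, ← Real.rpow_natCast, ← Real.rpow_mul hn0.le]
    norm_num
  have hx3 : (n : ℝ) ^ (3 / 4 : ℝ) = x ^ 3 := by
    rw [hx, ← Real.rpow_natCast, ← Real.rpow_mul hn0.le]
    norm_num
  rw [hx3] at h2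
  set m := (Nat.primeCounting n - 1) / 2 with hm
  have hm1 : (Nat.primeCounting n : ℝ) ≤ 2 * m + 2 := by
    have : Nat.primeCounting n ≤ 2 * m + 2 := by omega
    exact_mod_cast this
  have hK : (0 : ℝ) ≤ K := Nat.cast_nonneg K
  have hx64 : 64 ≤ x := by nlinarith
  have hm2 : x ^ 3 / 32 ≤ m := by
    have h5 : x ^ 3 / 8 ≤ 2 * m + 2 := h2.trans hm1
    have h6 : 64 ≤ x ^ 3 := by nlinarith [sq_nonneg x, mul_pos hx0 hx0, pow_pos hx0 3, pow_le_pow_left₀ (by norm_num : (0:ℝ) ≤ 64) hx64 3]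
    linarith
  have h7 : (K : ℝ) * ((n : ℝ) + 1) ≤ (m : ℝ) * m := by
    have h8 : x ^ 3 / 32 * (x ^ 3 / 32) ≤ (m : ℝ) * m :=
      mul_le_mul hm2 hm2 (by positivity) (by positivity)
    refine le_trans ?_ h8
    have h9 : (K : ℝ) * ((n : ℝ) + 1) ≤ K * (2 * n) := by nlinarith
    refine h9.trans ?_
    rw [← hx4]
    have h10 : x ^ 3 / 32 * (x ^ 3 / 32) = x ^ 4 * (x ^ 2 / 1024) := by ring
    rw [h10]
    have h11 : 2 * (K : ℝ) ≤ x ^ 2 / 1024 := by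
      have h12 : (64 * ((K : ℝ) + 1)) ^ 2 ≤ x ^ 2 := pow_le_pow_left₀ (by positivity) h3 2
      nlinarith
    have h13 : 0 ≤ x ^ 4 := by positivity
    nlinarith
  exact_mod_cast h7

end Pool.Agent.P8H25.CSP
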