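import Pool.Agent.P8H25.CSP.Sign
import Pool.Agent.P8H25.CSP.Num

/-!
# Superpolynomial growth of the subgroups of the mapping class group and the gap theorem
-/

set_option autoImplicit false

namespace Pool.Agent.P8H25.CSP.Sf

open Subgroup

/-- Many distinct odd primes with a small product. -/
lemma primes_exist (N m : ℕ) (hm : m = (Nat.primeCounting N - 1) / 2) : ∃ p : Fin m ⊕ Fin m → ℕ,
    (∀ i, (p i).Prime) ∧ (∀ i, p i ≠ 2) ∧ Function.Injective p ∧ ∏ i, p i ≤ 4 ^ N := by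
  classical
  let S : Finset ℕ := ((Finset.range (N + 1)).filter Nat.Prime).erase 2
  have hS : 2 * m ≤ S.card := by
    have h1 : Nat.primeCounting N = ((Finset.range (N + 1)).filter Nat.Prime).card := by
      unfold Nat.primeCounting Nat.primeCounting'
      rw [Nat.count_eq_card_filter_range]
    have h2 : ((Finset.range (N + 1)).filter Nat.Prime).card - 1 ≤ S.card := Finset.pred_card_le_card_erase
    omega
  have hcard : Fintype.card (Fin m ⊕ Fin m) ≤ Fintype.card S := by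
    rw [Fintype.card_sum, Fintype.card_fin, Fintype.card_coe]
    omega
  obtain ⟨f⟩ := Function.Embedding.nonempty_of_card_le hcard
  refine ⟨fun i => (f i : ℕ), ?_, ?_, ?_, ?_⟩
  · intro i
    have := (f i).2
    exact (Finset.mem_filter.1 (Finset.mem_of_mem_erase this)).2
  · intro i
    exact Finset.ne_of_mem_erase (f i).2
  · intro i j h
    exact f.injective (Subtype.ext h)
  · have h1 : ∏ i, ((f i : S) : ℕ) = ∏ x ∈ (Finset.univ.map (f.trans (Function.Embedding.subtype _))), x := by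
      rw [Finset.prod_map]
      rfl
    rw [h1]
    refine le_trans ?_ (primorial_le_four_pow N)
    unfold primorial
    apply Finset.prod_le_prod_of_subset_of_one_le'
    · intro x hx
      obtain ⟨i, _, rfl⟩ := Finset.mem_map.1 hx
      have := Finset.mem_of_mem_erase (f i).2
      exact this
    · intro x hx _
      exact (Finset.mem_filter.1 hx).2.one_lt.le

theorem superpoly (g : ℕ) (hg : 1 ≤ g) (K : ℕ) : ∃ n₀ : ℕ, ∀ n : ℕ, n₀ ≤ n →
    ((n ^ K : ℕ) : ℕ∞) ≤ subs (SG g) n := by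
  classical
  set c := (2 * g) * (2 * g) with hc
  have hc1 : 1 ≤ c := by
    rw [hc]
    nlinarith
  have hB : 1 < 4 ^ c := Nat.one_lt_pow (by omega) (by norm_num)
  obtain ⟨N₀, hN₀⟩ := half_sq (2 * c * K)
  refine ⟨(4 ^ c) ^ N₀, fun n hn => ?_⟩
  have hn0 : n ≠ 0 := by
    have : 0 < (4 ^ c) ^ N₀ := by positivity
    omega
  set N := Nat.log (4 ^ c) n with hN
  have h1 : (4 ^ c) ^ N ≤ n := Nat.pow_log_le_self _ hn0
  have h2 : n < (4 ^ c) ^ (N + 1) := Nat.lt_pow_succ_log_self hB n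
  have h3 : N₀ ≤ N := by
    rw [hN]
    exact (Nat.le_log_iff_pow_le hB hn0).2 hn
  have h4 := hN₀ N h3
  obtain ⟨m, hm⟩ : ∃ m, m = (Nat.primeCounting N - 1) / 2 := ⟨_, rfl⟩
  rw [← hm] at h4
  obtain ⟨p, hp, hp2, hpi, hprod⟩ := primes_exist N m hm
  have h5 : (∏ i, p i) ^ ((2 * g) * (2 * g)) ≤ n := by
    refine (Nat.pow_le_pow_left hprod _).trans ?_
    rw [← pow_mul, mul_comm N, pow_mul]
    exact h1
  have h6 := many (⟨0, hg⟩ : Fin g) p hp hp2 hpi n h5
  refine le_trans ?_ h6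
  have h7 : n ^ K ≤ 2 ^ (m * m) := by
    calc n ^ K ≤ ((4 ^ c) ^ (N + 1)) ^ K := Nat.pow_le_pow_left h2.le _
      _ = 2 ^ (2 * c * K * (N + 1)) := by
          rw [show (4 : ℕ) = 2 ^ 2 by norm_num, ← pow_mul, ← pow_mul, ← pow_mul]
          congr 1
          ring
      _ ≤ 2 ^ (m * m) := Nat.pow_le_pow_right (by norm_num) h4
  exact_mod_cast h7

lemma subs_mono {G : Type} [Group G] {n n' : ℕ} (h : n ≤ n') : subs G n ≤ subs G n' :=
  Set.encard_le_encard fun _ hH => ⟨hH.1, hH.2.1, hH.2.2.trans h⟩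

lemma ncSubs_mono {G : Type} [Group G] {n n' : ℕ} (h : n ≤ n') : ncSubs G n ≤ ncSubs G n' :=
  Set.encard_le_encard fun _ hH => ⟨hH.1, hH.2.1, hH.2.2.1, hH.2.2.2.trans h⟩

lemma subs_congr {G G' : Type} [Group G] [Group G'] (e : G ≃* G') (n : ℕ) : subs G' n ≤ subs G n := by
  have hsurj : Function.Surjective (MulAut.congr e).toMonoidHom := (MulAut.congr e).surjective
  refine Set.encard_le_encard_of_injOn (f := fun H => H.comap (MulAut.congr e).toMonoidHom) ?_ ?_
  · rintro H ⟨h1, h2, h3⟩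
    refine ⟨fun x => ?_, ?_, ?_⟩
    · show MulAut.congr e (MulAut.conj x) ∈ H
      have : MulAut.congr e (MulAut.conj x) = MulAut.conj (e x) := by
        ext y
        simp [MulAut.congr]
      rw [this]
      exact h1 _
    · show (H.comap (MulAut.congr e).toMonoidHom).index ≠ 0
      rw [index_comap_of_surjective _ hsurj]
      exact h2
    · show (H.comap (MulAut.congr e).toMonoidHom).index ≤ n
      rw [index_comap_of_surjective _ hsurj]
      exact h3
  · intro H _ H' _ h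
    exact comap_injective hsurj h

/-- superpolynomial growth -/
def Super (G : Type) [Group G] : Prop := ∀ K : ℕ, ∃ n₀ : ℕ, ∀ n : ℕ, n₀ ≤ n → ((n ^ K : ℕ) : ℕ∞) ≤ subs G n

lemma enat_cancel {a : ℕ} (ha : a ≠ 0) {b x : ℕ∞} (h : ((a : ℕ) : ℕ∞) * b ≤ (a : ℕ∞) * x) : b ≤ x := by
  induction x using ENat.recTopCoe with
  | top => exact le_top
  | coe x =>
    induction b using ENat.recTopCoe with
    | top =>
      exfalso
      rw [ENat.mul_top (by exact_mod_cast ha)] at h
      have h2 : ((a : ℕ) : ℕ∞) * (x : ℕ∞) = ((a * x : ℕ) : ℕ∞) := by push_cast; rfl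
      rw [h2] at h
      exact absurd h (not_le.2 (ENat.natCast_lt_top _))
    | coe b =>
      have h3 : a * b ≤ a * x := by exact_mod_cast h
      exact_mod_cast Nat.le_of_mul_le_mul_left h3 (Nat.pos_of_ne_zero ha)

/-- **The gap theorem**, lower bound at the multiples of the index. -/
lemma gap_mult {G : Type} [Group G] (hG : Super G) (N : Subgroup (MulAut G)) (hN0 : N.index ≠ 0)
    (hNo : Outer N) (hN : ¬ Congruence N) (K : ℕ) : ∃ n₀ : ℕ, ∀ n : ℕ, n₀ ≤ n →
      (((N.index * n) ^ K : ℕ) : ℕ∞) ≤ ncSubs G (N.index * n) := by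
  set d := N.index with hd
  set l := Nat.log 2 d with hl
  obtain ⟨n₁, h1⟩ := hG (2 * (l + K))
  refine ⟨max n₁ (max d 1), fun n hn => ?_⟩
  have hn1 : n₁ ≤ n := le_trans (le_max_left _ _) hn
  have hnd : d ≤ n := le_trans (le_trans (le_max_left _ _) (le_max_right _ _)) hn
  have hn0 : 1 ≤ n := le_trans (le_trans (le_max_right _ _) (le_max_right _ _)) hn
  have h2 : (d * n) ^ (l + K) ≤ n ^ (2 * (l + K)) := by
    rw [pow_mul]
    apply Nat.pow_le_pow_left
    rw [pow_two]
    exact Nat.mul_le_mul_right _ hnd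
  have h3 := subs_le N hN0 hNo hN n
  have h4 : (((d * n) ^ (l + K) : ℕ) : ℕ∞) ≤ (((d * n) ^ l : ℕ) : ℕ∞) * ncSubs G (d * n) :=
    (by exact_mod_cast h2 : (((d * n) ^ (l + K) : ℕ) : ℕ∞) ≤ ((n ^ (2 * (l + K)) : ℕ) : ℕ∞)).trans
      ((h1 n hn1).trans h3)
  have h5 : (d * n) ^ l ≠ 0 := by
    have : 0 < d * n := Nat.mul_pos (Nat.pos_of_ne_zero hN0) hn0
    positivity
  apply enat_cancel h5
  refine le_trans (le_of_eq ?_) h4
  rw [pow_add]
  push_cast
  rfl

/-- **The gap theorem.** -/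
theorem gap {G : Type} [Group G] (hG : Super G) (h : ¬ CongruenceProperty G) (K : ℕ) :
    ∃ n₀ : ℕ, ∀ n : ℕ, n₀ ≤ n → ((n ^ K : ℕ) : ℕ∞) ≤ ncSubs G n := by
  unfold CongruenceProperty at h
  push Not at h
  obtain ⟨N, hNf, hNo, hN⟩ := h
  have hN0 := hNf.index_ne_zero
  obtain ⟨n₁, h1⟩ := gap_mult hG N hN0 hNo hN (K + 1)
  set d := N.index with hd
  have hd0 : 0 < d := Nat.pos_of_ne_zero hN0
  refine ⟨max (d * (n₁ + 1)) (max (2 * d) (2 ^ (K + 1))), fun n hn => ?_⟩
  have hn1 : d * (n₁ + 1) ≤ n := le_trans (le_max_left _ _) hn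
  have hn2 : 2 * d ≤ n := le_trans (le_trans (le_max_left _ _) (le_max_right _ _)) hn
  have hn3 : 2 ^ (K + 1) ≤ n := le_trans (le_trans (le_max_right _ _) (le_max_right _ _)) hn
  have h2 : n₁ ≤ n / d := by
    rw [Nat.le_div_iff_mul_le hd0]
    nlinarith
  have h3 := h1 (n / d) h2
  have h4 : d * (n / d) ≤ n := Nat.mul_div_le n d
  refine le_trans ?_ (h3.trans (ncSubs_mono h4))
  have h5 : n ≤ 2 * (d * (n / d)) := by
    have h6 := Nat.div_add_mod n d
    have h7 := Nat.mod_lt n hd0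
    omega
  have h8 : n ^ K ≤ (d * (n / d)) ^ (K + 1) := by
    have h9 : n ^ (K + 1) ≤ 2 ^ (K + 1) * (d * (n / d)) ^ (K + 1) := by
      rw [← mul_pow]
      exact Nat.pow_le_pow_left h5 _
    have h10 : 2 ^ (K + 1) * n ^ K ≤ n ^ (K + 1) := by
      rw [pow_succ n K, mul_comm]
      exact Nat.mul_le_mul_left _ hn3
    exact Nat.le_of_mul_le_mul_left (h10.trans h9) (by positivity)
  exact_mod_cast h8

/-- **The logarithmic law.** -/
theorem log_law {G : Type} [Group G] (hG : Super G) (N : Subgroup (MulAut G)) (hN0 : N.index ≠ 0)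
    (hNo : Outer N) (hN : ¬ Congruence N) (a b : ℕ) (hab : a < b) : ∃ n₀ : ℕ, ∀ n : ℕ, n₀ ≤ n →
      (subs G n) ^ a ≤ (ncSubs G (N.index * n)) ^ b := by
  set d := N.index with hd
  set l := Nat.log 2 d with hl
  obtain ⟨n₁, h1⟩ := hG (2 * (l * b))
  refine ⟨max n₁ (max d 1), fun n hn => ?_⟩
  have hn1 : n₁ ≤ n := le_trans (le_max_left _ _) hn
  have hnd : d ≤ n := le_trans (le_trans (le_max_left _ _) (le_max_right _ _)) hn
  have hn0 : 1 ≤ n := le_trans (le_trans (le_max_right _ _) (le_max_right _ _)) hn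
  have h3 := subs_le N hN0 hNo hN n
  have hdn : 0 < d * n := Nat.mul_pos (Nat.pos_of_ne_zero hN0) hn0
  have h2 : ((((d * n) ^ l) ^ b : ℕ) : ℕ∞) ≤ subs G n := by
    refine le_trans ?_ (h1 n hn1)
    have : ((d * n) ^ l) ^ b ≤ n ^ (2 * (l * b)) := by
      rw [← pow_mul, pow_mul n 2]
      apply Nat.pow_le_pow_left
      rw [pow_two]
      exact Nat.mul_le_mul_right _ hnd
    exact_mod_cast this
  have hs1 : 1 ≤ subs G n := by
    refine le_trans ?_ h2
    have : 1 ≤ ((d * n) ^ l) ^ b := Nat.one_le_iff_ne_zero.2 (by positivity)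
    exact_mod_cast this
  have hb : b ≠ 0 := by omega
  generalize hnc : ncSubs G (d * n) = y at h3 ⊢
  generalize hsn : subs G n = s at h2 h3 hs1 ⊢
  induction y using ENat.recTopCoe with
  | top =>
    rw [ENat.top_pow hb]
    exact le_top
  | coe y =>
    induction s using ENat.recTopCoe with
    | top =>
      exfalso
      have h4 : (((d * n) ^ l : ℕ) : ℕ∞) * (y : ℕ∞) = (((d * n) ^ l * y : ℕ) : ℕ∞) := by push_cast; rfl
      rw [h4] at h3
      exact absurd h3 (not_le.2 (ENat.natCast_lt_top _))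
    | coe s =>
      have h3' : s ≤ (d * n) ^ l * y := by exact_mod_cast h3
      have h2' : ((d * n) ^ l) ^ b ≤ s := by exact_mod_cast h2
      have hs1' : 1 ≤ s := by exact_mod_cast hs1
      have h5 : s ^ b ≤ ((d * n) ^ l) ^ b * y ^ b := by
        rw [← mul_pow]
        exact Nat.pow_le_pow_left h3' _
      have h6 : s ^ b ≤ s * y ^ b := h5.trans (Nat.mul_le_mul_right _ h2')
      have h7 : s * s ^ a ≤ s ^ b := by
        rw [← pow_succ']
        exact Nat.pow_le_pow_right hs1' hab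
      have h8 : s ^ a ≤ y ^ b := Nat.le_of_mul_le_mul_left (h7.trans h6) hs1'
      exact_mod_cast h8

lemma nc_zero {G : Type} [Group G] (h : CongruenceProperty G) (n : ℕ) : ncSubs G n = 0 := by
  unfold ncSubs
  rw [Set.encard_eq_zero, Set.eq_empty_iff_forall_notMem]
  rintro H ⟨h2, h3, h4, _⟩
  exact h3 (h H ⟨h4⟩ h2)

lemma subs_pos {G : Type} [Group G] {n : ℕ} (hn : 1 ≤ n) : 0 < subs G n := by
  unfold subs
  rw [Set.encard_pos]
  exact ⟨⊤, fun _ => trivial, by simp, by simpa using hn⟩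

end Pool.Agent.P8H25.CSP.Sf
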