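import Mathlib

/-!
# Asymptotics for the explicit gap
-/

set_option autoImplicit false

namespace Pool.Agent.P8H25.CSP

open Filter Real

/-- `(log x / log log x) ^ 2` -/
noncomputable def gr (x : ℝ) : ℝ := (Real.log x / Real.log (Real.log x)) ^ 2

lemma log_small (ε : ℝ) (hε : 0 < ε) : ∀ᶠ x : ℝ in atTop, Real.log x ≤ ε * x := by
  have h := Real.isLittleO_log_id_atTop.def hε
  filter_upwards [h, eventually_ge_atTop 1] with x hx hx1
  have h1 : 0 ≤ Real.log x := Real.log_nonneg hx1
  simp only [id, Real.norm_eq_abs] at hx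
  rw [abs_of_nonneg h1, abs_of_nonneg (by linarith)] at hx
  exact hx

/-- Half of the number of the odd primes up to `N`. -/
theorem half_lower : ∃ N₀ : ℕ, ∀ N : ℕ, N₀ ≤ N →
    (N : ℝ) / (5 * Real.log N) ≤ (((Nat.primeCounting N - 1) / 2 : ℕ) : ℝ) := by
  have hlog2 := Real.log_two_gt_d9
  have h1 : ∀ᶠ n : ℕ in atTop, Real.log ((n : ℝ) + 1) ≤ (1 / 20) * ((n : ℝ) + 1) :=
    (tendsto_atTop_add_const_right _ 1 tendsto_natCast_atTop_atTop).eventually (log_small (1 / 20) (by norm_num))
  have h2 : ∀ᶠ n : ℕ in atTop, Real.log (n : ℝ) ≤ (1 / 20) * (n : ℝ) :=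
    tendsto_natCast_atTop_atTop.eventually (log_small (1 / 20) (by norm_num))
  obtain ⟨N₀, hN₀⟩ := eventually_atTop.1 (h1.and (h2.and (eventually_ge_atTop 3)))
  refine ⟨N₀, fun N hN => ?_⟩
  obtain ⟨h3, h4, h5⟩ := hN₀ N hN
  have hN3 : (3 : ℝ) ≤ N := by exact_mod_cast h5
  have hlog : 0 < Real.log N := Real.log_pos (by linarith)
  have h6 := Chebyshev.pi_ge N
  rw [div_le_iff₀ hlog] at h6
  set m := (Nat.primeCounting N - 1) / 2 with hm
  have hm1 : (Nat.primeCounting N : ℝ) ≤ 2 * m + 2 := by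
    have : Nat.primeCounting N ≤ 2 * m + 2 := by omega
    exact_mod_cast this
  rw [div_le_iff₀ (by positivity)]
  have h7 : (N : ℝ) * Real.log 2 - Real.log (N + 1) ≤ (2 * m + 2) * Real.log N :=
    h6.trans (mul_le_mul_of_nonneg_right hm1 hlog.le)
  nlinarith

/-- The comparison at `n` of the logarithms of the two sides. -/
lemma gr_le (C : ℝ) (hC : 4 ≤ C) : ∃ n₀ : ℕ, ∀ n : ℕ, n₀ ≤ n → ∀ N m : ℕ,
    Real.log n ≤ (N + 1) * C → N * C ≤ Real.log n → (N : ℝ) / (5 * Real.log N) ≤ m →
    (1 / (200 * C ^ 2)) * gr n ≤ m * m * Real.log 2 := by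
  have h1 : ∀ᶠ n : ℕ in atTop, max (2 * C) (C * 3) ≤ Real.log n :=
    (Real.tendsto_log_atTop.comp tendsto_natCast_atTop_atTop).eventually_ge_atTop _
  obtain ⟨n₀, hn₀⟩ := eventually_atTop.1 h1
  refine ⟨n₀, fun n hn N m h2 h3 h4 => ?_⟩
  have h5 := hn₀ n hn
  have h6 : 2 * C ≤ Real.log n := le_trans (le_max_left _ _) h5
  have h6' : C * 3 ≤ Real.log n := le_trans (le_max_right _ _) h5
  have hC0 : 0 < C := by linarith
  have hNlow : Real.log n / (2 * C) ≤ N := by
    rw [div_le_iff₀ (by positivity)]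
    nlinarith
  have hN2 : (2 : ℝ) ≤ N := by
    have : (3 : ℝ) * C ≤ (N + 1) * C := by linarith
    have := le_of_mul_le_mul_right this hC0
    linarith
  have hNlog : (N : ℝ) ≤ Real.log n := by nlinarith
  have hL1 : 0 < Real.log N := Real.log_pos (by linarith)
  have hLL : Real.log N ≤ Real.log (Real.log n) := Real.log_le_log (by linarith) hNlog
  have hLL0 : 0 < Real.log (Real.log n) := lt_of_lt_of_le hL1 hLL
  have h7 : Real.log n / (10 * C) / Real.log (Real.log n) ≤ m := by
    refine le_trans ?_ h4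
    rw [div_le_div_iff₀ hLL0 (by positivity)]
    have h8 : Real.log n / (10 * C) * 5 = Real.log n / (2 * C) := by
      field_simp
      ring
    calc Real.log n / (10 * C) * (5 * Real.log N) = (Real.log n / (10 * C) * 5) * Real.log N := by ring
      _ = Real.log n / (2 * C) * Real.log N := by rw [h8]
      _ ≤ N * Real.log (Real.log n) := mul_le_mul hNlow hLL hL1.le (by positivity)
  have h9 : 0 ≤ Real.log n / (10 * C) / Real.log (Real.log n) := by
    have : 0 ≤ Real.log n := by linarith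
    positivity
  have h10 := mul_le_mul h7 h7 h9 (by positivity)
  have h11 : Real.log n / (10 * C) / Real.log (Real.log n) * (Real.log n / (10 * C) / Real.log (Real.log n)) =
      (1 / (100 * C ^ 2)) * gr n := by
    unfold gr
    field_simp
    ring
  rw [h11] at h10
  have h12 : (1 / (200 * C ^ 2)) * gr n = (1 / (100 * C ^ 2)) * gr n * (1 / 2) := by
    field_simp
    ring
  rw [h12]
  have hgr : 0 ≤ (1 / (100 * C ^ 2)) * gr n := by
    unfold gr
    positivity
  have hlog2 := Real.log_two_gt_d9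
  calc (1 / (100 * C ^ 2)) * gr n * (1 / 2) ≤ (m * m) * (1 / 2) := mul_le_mul_of_nonneg_right h10 (by norm_num)
    _ ≤ m * m * Real.log 2 := mul_le_mul_of_nonneg_left (by linarith) (by positivity)

/-- The loss from the passage to the noncongruence subgroups is small. -/
lemma gr_gap (c : ℝ) (hc : 0 < c) (d l : ℕ) (hd : 0 < d) : ∃ x₀ : ℕ, ∀ x : ℕ, x₀ ≤ x → ∀ n : ℕ, n = x / d →
    Real.exp (c / 2 * gr x) * (x : ℝ) ^ l + (x : ℝ) ^ l ≤ Real.exp (c * gr n) := by
  have hd0 : (0 : ℝ) < d := by exact_mod_cast hd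
  have hlogt : Tendsto (fun n : ℕ => Real.log (n : ℝ)) atTop atTop := Real.tendsto_log_atTop.comp tendsto_natCast_atTop_atTop
  have h1 : ∀ᶠ x : ℕ in atTop, max 100 (100 * Real.log (2 * d)) ≤ Real.log x := hlogt.eventually_ge_atTop _
  have h2 : ∀ᶠ x : ℕ in atTop, (64 * ((l : ℝ) + 1) / (0.4 * c)) ≤ (Real.log x) ^ (1 / 2 : ℝ) :=
    ((tendsto_rpow_atTop (by norm_num : (0 : ℝ) < 1 / 2)).comp hlogt).eventually_ge_atTop _
  obtain ⟨x₀, hx₀⟩ := eventually_atTop.1 (h1.and (h2.and (eventually_ge_atTop (2 * d))))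
  refine ⟨x₀, fun x hx n hn => ?_⟩
  obtain ⟨h3, h4, h5⟩ := hx₀ x hx
  have h3a : 100 ≤ Real.log x := le_trans (le_max_left _ _) h3
  have h3b : 100 * Real.log (2 * d) ≤ Real.log x := le_trans (le_max_right _ _) h3
  set u := Real.log x with hu
  have hx0 : (0 : ℝ) < x := by
    have : 0 < x := by omega
    exact_mod_cast this
  -- `log n`
  have hnx : (x : ℝ) / (2 * d) ≤ n := by
    rw [div_le_iff₀ (by positivity), hn]
    have h6 := Nat.div_add_mod x d
    have h7 := Nat.mod_lt x hd
    have h8 : 1 ≤ x / d := by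
      rw [Nat.le_div_iff_mul_le hd]
      omega
    have h9 : x ≤ (x / d) * (2 * d) := by nlinarith
    exact_mod_cast h9
  have hn0 : (0 : ℝ) < n := lt_of_lt_of_le (by positivity) hnx
  have hnle : (n : ℝ) ≤ x := by
    rw [hn]
    exact_mod_cast Nat.div_le_self x d
  have hlogn : 0.99 * u ≤ Real.log n := by
    have h6 := Real.log_le_log (by positivity) hnx
    rw [Real.log_div hx0.ne' (by positivity)] at h6
    have : Real.log x = u := rfl
    rw [this] at h6
    linarith
  have hlogn1 : Real.log n ≤ u := Real.log_le_log hn0 hnle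
  have hlogn2 : 99 ≤ Real.log n := by linarith
  have hLLn : 0 < Real.log (Real.log n) := Real.log_pos (by linarith)
  have hLLu : Real.log (Real.log n) ≤ Real.log u := Real.log_le_log (by linarith) hlogn1
  have hLu : 0 < Real.log u := lt_of_lt_of_le hLLn hLLu
  have hgr : 0.9 * gr x ≤ gr n := by
    have h6 : 0.99 * u / Real.log u ≤ Real.log n / Real.log (Real.log n) := by
      rw [div_le_div_iff₀ hLu hLLn]
      exact mul_le_mul hlogn hLLu hLLn.le (by linarith)
    have h7 : (0.99 * u / Real.log u) ^ 2 ≤ (Real.log n / Real.log (Real.log n)) ^ 2 :=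
      pow_le_pow_left₀ (by positivity) h6 2
    have h8 : (0.99 * u / Real.log u) ^ 2 = 0.9801 * gr x := by
      unfold gr
      rw [← hu]
      ring
    rw [h8] at h7
    have h9 : 0 ≤ gr x := by
      unfold gr
      positivity
    unfold gr at h7 ⊢
    unfold gr at h9
    linarith
  -- `gr x` is large compared to `log x`
  have hbig : ((l : ℝ) + 1) * u ≤ 0.4 * c * gr x := by
    have h6 : Real.log u ≤ u ^ (1 / 4 : ℝ) / (1 / 4) := Real.log_le_rpow_div (by linarith) (by norm_num)
    set w := u ^ (1 / 4 : ℝ) with hw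
    have hw0 : 0 < w := by positivity
    have hw4 : w ^ 4 = u := by
      rw [hw, ← Real.rpow_natCast, ← Real.rpow_mul (by linarith)]
      norm_num
    have hw2 : u ^ (1 / 2 : ℝ) = w ^ 2 := by
      rw [hw, ← Real.rpow_natCast, ← Real.rpow_mul (by linarith)]
      norm_num
    rw [hw2] at h4
    have h7 : (Real.log u) ^ 2 ≤ 16 * w ^ 2 := by
      have h8 : Real.log u ≤ 4 * w := by linarith
      nlinarith
    have h8 : gr x = w ^ 8 / (Real.log u) ^ 2 := by
      unfold gr
      rw [← hu, div_pow, ← hw4]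
      ring
    have h9 : w ^ 6 / 16 ≤ gr x := by
      rw [h8, le_div_iff₀ (by positivity)]
      have : w ^ 6 / 16 * (Real.log u) ^ 2 ≤ w ^ 6 / 16 * (16 * w ^ 2) := mul_le_mul_of_nonneg_left h7 (by positivity)
      refine this.trans (le_of_eq ?_)
      ring
    have h10 : 64 * ((l : ℝ) + 1) ≤ 0.4 * c * w ^ 2 := by
      rw [div_le_iff₀ (by positivity)] at h4
      linarith
    calc ((l : ℝ) + 1) * u = ((l : ℝ) + 1) * w ^ 4 := by rw [hw4]
      _ ≤ (0.4 * c * w ^ 2 / 64) * w ^ 4 := mul_le_mul_of_nonneg_right (by linarith) (by positivity)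
      _ ≤ 0.4 * c * (w ^ 6 / 16) := by
          have : 0 ≤ c * w ^ 6 := by positivity
          nlinarith
      _ ≤ 0.4 * c * gr x := mul_le_mul_of_nonneg_left h9 (by positivity)
  have hxl : (x : ℝ) ^ l = Real.exp (l * u) := by
    rw [hu, mul_comm, Real.exp_mul, Real.exp_log hx0, Real.rpow_natCast]
  have hgr0 : 0 ≤ gr x := by
    unfold gr
    positivity
  have hE : (2 : ℝ) ≤ Real.exp u := by
    have := Real.add_one_le_exp u
    linarith
  have h1e : 1 ≤ Real.exp (c / 2 * gr x) := Real.one_le_exp (by positivity)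
  rw [hxl]
  calc Real.exp (c / 2 * gr x) * Real.exp (l * u) + Real.exp (l * u)
      ≤ Real.exp (c / 2 * gr x) * Real.exp (l * u) + Real.exp (c / 2 * gr x) * Real.exp (l * u) := by
        have : Real.exp (l * u) ≤ Real.exp (c / 2 * gr x) * Real.exp (l * u) :=
          le_mul_of_one_le_left (Real.exp_pos _).le h1e
        linarith
    _ = Real.exp (c / 2 * gr x) * Real.exp (l * u) * 2 := by ring
    _ ≤ Real.exp (c / 2 * gr x) * Real.exp (l * u) * Real.exp u := by gcongr
    _ = Real.exp (c / 2 * gr x + ((l : ℝ) + 1) * u) := by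
        rw [← Real.exp_add, ← Real.exp_add]
        congr 1
        ring
    _ ≤ Real.exp (c * gr n) := by
        apply Real.exp_le_exp.2
        nlinarith

end Pool.Agent.P8H25.CSP
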