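import Pool.Agent.P8H25.CSP.Grow
import Pool.Agent.P8H25.CSP.Num2

/-!
# The gap theorem with an explicit function
-/

set_option autoImplicit false

namespace Pool.Agent.P8H25.CSP.Sf

open Subgroup

/-- The number of subgroups of index at most `n` is at least `exp (c (log n / log log n) ^ 2)` for large `n`. -/
def Fast (G : Type) [Group G] (c : ℝ) : Prop :=
  ∃ n₀ : ℕ, ∀ n : ℕ, n₀ ≤ n → ((⌊Real.exp (c * gr n)⌋₊ : ℕ) : ℕ∞) ≤ subs G n

theorem fast (g : ℕ) (hg : 1 ≤ g) : Fast (SG g) (1 / (200 * ((((2 * g) * (2 * g) : ℕ) : ℝ) * Real.log 4) ^ 2)) := by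
  classical
  set c₁ := (2 * g) * (2 * g) with hc
  have hc1 : 4 ≤ c₁ := by
    rw [hc]
    nlinarith
  have hlog4 : Real.log 4 = 2 * Real.log 2 := by
    rw [show (4 : ℝ) = 2 ^ 2 by norm_num, Real.log_pow]
    norm_num
  have hlog2 := Real.log_two_gt_d9
  have hc1' : (4 : ℝ) ≤ c₁ := by exact_mod_cast hc1
  have hC : 4 ≤ (c₁ : ℝ) * Real.log 4 := by
    rw [hlog4]
    nlinarith
  set C := (c₁ : ℝ) * Real.log 4 with hCdef
  have hB : 1 < 4 ^ c₁ := Nat.one_lt_pow (by omega) (by norm_num)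
  obtain ⟨N₀, hN₀⟩ := half_lower
  obtain ⟨n₁, hn₁⟩ := gr_le C hC
  refine ⟨max n₁ ((4 ^ c₁) ^ N₀), fun n hn => ?_⟩
  have hnn : (4 ^ c₁) ^ N₀ ≤ n := le_trans (le_max_right _ _) hn
  have hn0 : n ≠ 0 := by
    have : 0 < (4 ^ c₁) ^ N₀ := by positivity
    omega
  have hn0' : (0 : ℝ) < n := by exact_mod_cast Nat.pos_of_ne_zero hn0
  set N := Nat.log (4 ^ c₁) n with hN
  have h1 : (4 ^ c₁) ^ N ≤ n := Nat.pow_log_le_self _ hn0
  have h2 : n < (4 ^ c₁) ^ (N + 1) := Nat.lt_pow_succ_log_self hB n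
  have h3 : N₀ ≤ N := by
    rw [hN]
    exact (Nat.le_log_iff_pow_le hB hn0).2 hnn
  obtain ⟨m, hm⟩ : ∃ m, m = (Nat.primeCounting N - 1) / 2 := ⟨_, rfl⟩
  have h4 := hN₀ N h3
  rw [← hm] at h4
  have h1' : (N : ℝ) * C ≤ Real.log n := by
    have h5 : ((4 : ℝ) ^ c₁) ^ N ≤ n := by exact_mod_cast h1
    have h6 := Real.log_le_log (by positivity) h5
    rw [Real.log_pow, Real.log_pow] at h6
    exact h6
  have h2' : Real.log n ≤ (N + 1) * C := by
    have h5 : (n : ℝ) ≤ ((4 : ℝ) ^ c₁) ^ (N + 1) := by exact_mod_cast h2.le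
    have h6 := Real.log_le_log hn0' h5
    rw [Real.log_pow, Real.log_pow] at h6
    push_cast at h6
    exact h6
  have h7 := hn₁ n (le_trans (le_max_left _ _) hn) N m h2' h1' h4
  obtain ⟨p, hp, hp2, hpi, hprod⟩ := primes_exist N m hm
  have h5 : (∏ i, p i) ^ ((2 * g) * (2 * g)) ≤ n := by
    refine (Nat.pow_le_pow_left hprod _).trans ?_
    rw [← pow_mul, mul_comm N, pow_mul]
    exact h1
  have h6 := many (⟨0, hg⟩ : Fin g) p hp hp2 hpi n h5
  refine le_trans ?_ h6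
  have h8 : ⌊Real.exp (1 / (200 * C ^ 2) * gr n)⌋₊ ≤ 2 ^ (m * m) := by
    apply Nat.floor_le_of_le
    push_cast
    have h9 : ((2 : ℝ) ^ (m * m)) = Real.exp (m * m * Real.log 2) := by
      rw [mul_comm ((m : ℝ) * m), Real.exp_mul, Real.exp_log (by norm_num)]
      rw [← Nat.cast_mul, Real.rpow_natCast]
    rw [h9]
    exact Real.exp_le_exp.2 h7
  exact_mod_cast h8

/-- **The gap theorem**, explicit form. -/
theorem gap_fast {G : Type} [Group G] {c : ℝ} (hc : 0 < c) (hG : Fast G c) (h : ¬ CongruenceProperty G) :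
    ∃ n₀ : ℕ, ∀ n : ℕ, n₀ ≤ n → ((⌊Real.exp (c / 2 * gr n)⌋₊ : ℕ) : ℕ∞) ≤ ncSubs G n := by
  unfold CongruenceProperty at h
  push Not at h
  obtain ⟨N, hNf, hNo, hN⟩ := h
  have hN0 := hNf.index_ne_zero
  obtain ⟨n₁, h1⟩ := hG
  set d := N.index with hd
  set l := Nat.log 2 d with hl
  have hd0 : 0 < d := Nat.pos_of_ne_zero hN0
  obtain ⟨x₁, hx₁⟩ := gr_gap c hc d l hd0
  refine ⟨max x₁ (d * (n₁ + 1)), fun x hx => ?_⟩
  have h2 := hx₁ x (le_trans (le_max_left _ _) hx) (x / d) rfl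
  have h3 : n₁ ≤ x / d := by
    rw [Nat.le_div_iff_mul_le hd0]
    have : d * (n₁ + 1) ≤ x := le_trans (le_max_right _ _) hx
    nlinarith
  have hx0 : 0 < x := by
    have : d * (n₁ + 1) ≤ x := le_trans (le_max_right _ _) hx
    have : 0 < d * (n₁ + 1) := Nat.mul_pos hd0 (Nat.succ_pos _)
    omega
  have h4 := h1 (x / d) h3
  have h5 := subs_le N hN0 hNo hN (x / d)
  have h6 : d * (x / d) ≤ x := Nat.mul_div_le x d
  have h7 : ((⌊Real.exp (c * gr ((x / d : ℕ) : ℝ))⌋₊ : ℕ) : ℕ∞) ≤ ((x ^ l : ℕ) : ℕ∞) * ncSubs G x := by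
    refine h4.trans (h5.trans ?_)
    refine mul_le_mul' ?_ (ncSubs_mono h6)
    exact_mod_cast Nat.pow_le_pow_left h6 l
  generalize ncSubs G x = y at h7 ⊢
  induction y using ENat.recTopCoe with
  | top => exact le_top
  | coe y =>
    have h8 : ⌊Real.exp (c * gr ((x / d : ℕ) : ℝ))⌋₊ ≤ x ^ l * y := by exact_mod_cast h7
    have h9 : Real.exp (c * gr ((x / d : ℕ) : ℝ)) < (x : ℝ) ^ l * y + 1 := by
      have h10 := Nat.lt_floor_add_one (Real.exp (c * gr ((x / d : ℕ) : ℝ)))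
      have h11 : ((⌊Real.exp (c * gr ((x / d : ℕ) : ℝ))⌋₊ : ℕ) : ℝ) ≤ (x : ℝ) ^ l * y := by exact_mod_cast h8
      linarith
    have hxl : (1 : ℝ) ≤ (x : ℝ) ^ l := one_le_pow₀ (by exact_mod_cast hx0)
    have h12 : Real.exp (c / 2 * gr x) * (x : ℝ) ^ l < (x : ℝ) ^ l * y := by linarith
    have h13 : Real.exp (c / 2 * gr x) < y := by
      rw [mul_comm] at h12
      exact lt_of_mul_lt_mul_left h12 (by positivity)
    have h14 : ⌊Real.exp (c / 2 * gr x)⌋₊ ≤ y := Nat.floor_le_of_le h13.le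
    exact_mod_cast h14

end Pool.Agent.P8H25.CSP.Sf
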