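import Pool.Agent.P8H25.CSP.Norm

/-!
# The gap theorem for normal subgroups
-/

set_option autoImplicit false

namespace Pool.Agent.P8H25.CSP.Sf

open Subgroup

theorem superpoly_normal (g : ℕ) (hg : 1 ≤ g) (K : ℕ) : ∃ n₀ : ℕ, ∀ n : ℕ, n₀ ≤ n →
    ((n ^ K : ℕ) : ℕ∞) ≤ normalSubs (SG g) n := by
  classical
  set c := (2 * g) * (2 * g) with hc
  have hc1 : 1 ≤ c := by
    rw [hc]
    nlinarith
  have hB : 1 < 4 ^ c := Nat.one_lt_pow (by omega) (by norm_num)
  obtain ⟨N₀, hN₀⟩ := half_sq (2 * c * K)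
  refine ⟨(4 ^ c) ^ N₀, fun n hn => ?_⟩
  have hn0 : n ≠ 0 := by
    have : 0 < (4 ^ c) ^ N₀ := by positivity
    omega
  set N := Nat.log (4 ^ c) n with hN
  have h1 : (4 ^ c) ^ N ≤ n := Nat.pow_log_le_self _ hn0
  have h2 : n < (4 ^ c) ^ (N + 1) := Nat.lt_pow_succ_log_self hB n
  have h3 : N₀ ≤ N := by
    rw [hN]
    exact (Nat.le_log_iff_pow_le hB hn0).2 hn
  have h4 := hN₀ N h3
  obtain ⟨m, hm⟩ : ∃ m, m = (Nat.primeCounting N - 1) / 2 := ⟨_, rfl⟩
  rw [← hm] at h4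
  obtain ⟨p, hp, hp2, hpi, hprod⟩ := primes_exist N m hm
  have h5 : (∏ i, p i) ^ ((2 * g) * (2 * g)) ≤ n := by
    refine (Nat.pow_le_pow_left hprod _).trans ?_
    rw [← pow_mul, mul_comm N, pow_mul]
    exact h1
  have h6 := many_normal (⟨0, hg⟩ : Fin g) p hp hp2 hpi n h5
  refine le_trans ?_ h6
  have h7 : n ^ K ≤ 2 ^ (m * m) := by
    calc n ^ K ≤ ((4 ^ c) ^ (N + 1)) ^ K := Nat.pow_le_pow_left h2.le _
      _ = 2 ^ (2 * c * K * (N + 1)) := by
          rw [show (4 : ℕ) = 2 ^ 2 by norm_num, ← pow_mul, ← pow_mul, ← pow_mul]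
          congr 1
          ring
      _ ≤ 2 ^ (m * m) := Nat.pow_le_pow_right (by norm_num) h4
  exact_mod_cast h7

lemma ncNormalSubs_mono {G : Type} [Group G] {n n' : ℕ} (h : n ≤ n') : ncNormalSubs G n ≤ ncNormalSubs G n' :=
  Set.encard_le_encard fun _ hH => ⟨hH.1, hH.2.1, hH.2.2.1, hH.2.2.2.1, hH.2.2.2.2.trans h⟩

lemma ncNormalSubs_le {G : Type} [Group G] (n : ℕ) : ncNormalSubs G n ≤ ncSubs G n :=
  Set.encard_le_encard fun _ hH => hH.2

lemma normalSubs_congr {G G' : Type} [Group G] [Group G'] (e : G ≃* G') (n : ℕ) :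
    normalSubs G' n ≤ normalSubs G n := by
  have hsurj : Function.Surjective (MulAut.congr e).toMonoidHom := (MulAut.congr e).surjective
  refine Set.encard_le_encard_of_injOn (f := fun H => H.comap (MulAut.congr e).toMonoidHom) ?_ ?_
  · rintro H ⟨h0, h1, h2, h3⟩
    refine ⟨h0.comap _, fun x => ?_, ?_, ?_⟩
    · show MulAut.congr e (MulAut.conj x) ∈ H
      have : MulAut.congr e (MulAut.conj x) = MulAut.conj (e x) := by
        ext y
        simp [MulAut.congr]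
      rw [this]
      exact h1 _
    · show (H.comap (MulAut.congr e).toMonoidHom).index ≠ 0
      rw [index_comap_of_surjective _ hsurj]
      exact h2
    · show (H.comap (MulAut.congr e).toMonoidHom).index ≤ n
      rw [index_comap_of_surjective _ hsurj]
      exact h3
  · intro H _ H' _ h
    exact comap_injective hsurj h

/-- superpolynomial growth of the normal subgroups -/
def SuperN (G : Type) [Group G] : Prop :=
  ∀ K : ℕ, ∃ n₀ : ℕ, ∀ n : ℕ, n₀ ≤ n → ((n ^ K : ℕ) : ℕ∞) ≤ normalSubs G n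

/-- The number of normal subgroups of index at most `n` is at least `exp (c (log n / log log n) ^ 2)`. -/
def FastN (G : Type) [Group G] (c : ℝ) : Prop :=
  ∃ n₀ : ℕ, ∀ n : ℕ, n₀ ≤ n → ((⌊Real.exp (c * gr n)⌋₊ : ℕ) : ℕ∞) ≤ normalSubs G n

lemma exists_normal {G : Type} [Group G] (h : ¬ CongruenceProperty G) :
    ∃ N : Subgroup (MulAut G), N.index ≠ 0 ∧ Outer N ∧ N.Normal ∧ ¬ Congruence N := by
  unfold CongruenceProperty at h
  push Not at h
  obtain ⟨N, hNf, hNo, hN⟩ := h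
  exact ⟨N.normalCore, (inferInstance : N.normalCore.FiniteIndex).index_ne_zero, Outer.core hNo,
    inferInstance, fun h2 => hN (congClass.mono _ _ (normalCore_le N) h2)⟩

/-- **The gap theorem**, lower bound at the multiples of the index. -/
lemma gap_mult_normal {G : Type} [Group G] (hG : SuperN G) (N : Subgroup (MulAut G)) (hN0 : N.index ≠ 0)
    (hNo : Outer N) (hNn : N.Normal) (hN : ¬ Congruence N) (K : ℕ) : ∃ n₀ : ℕ, ∀ n : ℕ, n₀ ≤ n →
      (((N.index * n) ^ K : ℕ) : ℕ∞) ≤ ncNormalSubs G (N.index * n) := by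
  set d := N.index with hd
  set l := Nat.log 2 d with hl
  obtain ⟨n₁, h1⟩ := hG (2 * (l + K))
  refine ⟨max n₁ (max d 1), fun n hn => ?_⟩
  have hn1 : n₁ ≤ n := le_trans (le_max_left _ _) hn
  have hnd : d ≤ n := le_trans (le_trans (le_max_left _ _) (le_max_right _ _)) hn
  have hn0 : 1 ≤ n := le_trans (le_trans (le_max_right _ _) (le_max_right _ _)) hn
  have h2 : (d * n) ^ (l + K) ≤ n ^ (2 * (l + K)) := by
    rw [pow_mul]
    apply Nat.pow_le_pow_left
    rw [pow_two]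
    exact Nat.mul_le_mul_right _ hnd
  have h3 := normalSubs_le N hN0 hNo hNn hN n
  have h4 : (((d * n) ^ (l + K) : ℕ) : ℕ∞) ≤ (((d * n) ^ l : ℕ) : ℕ∞) * ncNormalSubs G (d * n) :=
    (by exact_mod_cast h2 : (((d * n) ^ (l + K) : ℕ) : ℕ∞) ≤ ((n ^ (2 * (l + K)) : ℕ) : ℕ∞)).trans
      ((h1 n hn1).trans h3)
  have h5 : (d * n) ^ l ≠ 0 := by
    have : 0 < d * n := Nat.mul_pos (Nat.pos_of_ne_zero hN0) hn0
    positivity
  apply enat_cancel h5
  refine le_trans (le_of_eq ?_) h4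
  rw [pow_add]
  push_cast
  rfl

/-- **The gap theorem.** -/
theorem gap_normal {G : Type} [Group G] (hG : SuperN G) (h : ¬ CongruenceProperty G) (K : ℕ) :
    ∃ n₀ : ℕ, ∀ n : ℕ, n₀ ≤ n → ((n ^ K : ℕ) : ℕ∞) ≤ ncNormalSubs G n := by
  obtain ⟨N, hN0, hNo, hNn, hN⟩ := exists_normal h
  obtain ⟨n₁, h1⟩ := gap_mult_normal hG N hN0 hNo hNn hN (K + 1)
  set d := N.index with hd
  have hd0 : 0 < d := Nat.pos_of_ne_zero hN0
  refine ⟨max (d * (n₁ + 1)) (max (2 * d) (2 ^ (K + 1))), fun n hn => ?_⟩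
  have hn1 : d * (n₁ + 1) ≤ n := le_trans (le_max_left _ _) hn
  have hn2 : 2 * d ≤ n := le_trans (le_trans (le_max_left _ _) (le_max_right _ _)) hn
  have hn3 : 2 ^ (K + 1) ≤ n := le_trans (le_trans (le_max_right _ _) (le_max_right _ _)) hn
  have h2 : n₁ ≤ n / d := by
    rw [Nat.le_div_iff_mul_le hd0]
    nlinarith
  have h3 := h1 (n / d) h2
  have h4 : d * (n / d) ≤ n := Nat.mul_div_le n d
  refine le_trans ?_ (h3.trans (ncNormalSubs_mono h4))
  have h5 : n ≤ 2 * (d * (n / d)) := by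
    have h6 := Nat.div_add_mod n d
    have h7 := Nat.mod_lt n hd0
    omega
  have h8 : n ^ K ≤ (d * (n / d)) ^ (K + 1) := by
    have h9 : n ^ (K + 1) ≤ 2 ^ (K + 1) * (d * (n / d)) ^ (K + 1) := by
      rw [← mul_pow]
      exact Nat.pow_le_pow_left h5 _
    have h10 : 2 ^ (K + 1) * n ^ K ≤ n ^ (K + 1) := by
      rw [pow_succ n K, mul_comm]
      exact Nat.mul_le_mul_left _ hn3
    exact Nat.le_of_mul_le_mul_left (h10.trans h9) (by positivity)
  exact_mod_cast h8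

/-- **The logarithmic law** for normal subgroups. -/
theorem log_law_normal {G : Type} [Group G] (hG : SuperN G) (N : Subgroup (MulAut G)) (hN0 : N.index ≠ 0)
    (hNo : Outer N) (hNn : N.Normal) (hN : ¬ Congruence N) (a b : ℕ) (hab : a < b) : ∃ n₀ : ℕ, ∀ n : ℕ, n₀ ≤ n →
      (normalSubs G n) ^ a ≤ (ncNormalSubs G (N.index * n)) ^ b := by
  set d := N.index with hd
  set l := Nat.log 2 d with hl
  obtain ⟨n₁, h1⟩ := hG (2 * (l * b))
  refine ⟨max n₁ (max d 1), fun n hn => ?_⟩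
  have hn1 : n₁ ≤ n := le_trans (le_max_left _ _) hn
  have hnd : d ≤ n := le_trans (le_trans (le_max_left _ _) (le_max_right _ _)) hn
  have hn0 : 1 ≤ n := le_trans (le_trans (le_max_right _ _) (le_max_right _ _)) hn
  have h3 := normalSubs_le N hN0 hNo hNn hN n
  have hdn : 0 < d * n := Nat.mul_pos (Nat.pos_of_ne_zero hN0) hn0
  have h2 : ((((d * n) ^ l) ^ b : ℕ) : ℕ∞) ≤ normalSubs G n := by
    refine le_trans ?_ (h1 n hn1)
    have : ((d * n) ^ l) ^ b ≤ n ^ (2 * (l * b)) := by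
      rw [← pow_mul, pow_mul n 2]
      apply Nat.pow_le_pow_left
      rw [pow_two]
      exact Nat.mul_le_mul_right _ hnd
    exact_mod_cast this
  have hs1 : 1 ≤ normalSubs G n := by
    refine le_trans ?_ h2
    have : 1 ≤ ((d * n) ^ l) ^ b := Nat.one_le_iff_ne_zero.2 (by positivity)
    exact_mod_cast this
  have hb : b ≠ 0 := by omega
  generalize hnc : ncNormalSubs G (d * n) = y at h3 ⊢
  generalize hsn : normalSubs G n = s at h2 h3 hs1 ⊢
  induction y using ENat.recTopCoe with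
  | top =>
    rw [ENat.top_pow hb]
    exact le_top
  | coe y =>
    induction s using ENat.recTopCoe with
    | top =>
      exfalso
      have h4 : (((d * n) ^ l : ℕ) : ℕ∞) * (y : ℕ∞) = (((d * n) ^ l * y : ℕ) : ℕ∞) := by push_cast; rfl
      rw [h4] at h3
      exact absurd h3 (not_le.2 (ENat.natCast_lt_top _))
    | coe s =>
      have h3' : s ≤ (d * n) ^ l * y := by exact_mod_cast h3
      have h2' : ((d * n) ^ l) ^ b ≤ s := by exact_mod_cast h2
      have hs1' : 1 ≤ s := by exact_mod_cast hs1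
      have h5 : s ^ b ≤ ((d * n) ^ l) ^ b * y ^ b := by
        rw [← mul_pow]
        exact Nat.pow_le_pow_left h3' _
      have h6 : s ^ b ≤ s * y ^ b := h5.trans (Nat.mul_le_mul_right _ h2')
      have h7 : s * s ^ a ≤ s ^ b := by
        rw [← pow_succ']
        exact Nat.pow_le_pow_right hs1' hab
      have h8 : s ^ a ≤ y ^ b := Nat.le_of_mul_le_mul_left (h7.trans h6) hs1'
      exact_mod_cast h8

theorem fast_normal (g : ℕ) (hg : 1 ≤ g) : FastN (SG g) (1 / (200 * ((((2 * g) * (2 * g) : ℕ) : ℝ) * Real.log 4) ^ 2)) := by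
  classical
  set c₁ := (2 * g) * (2 * g) with hc
  have hc1 : 4 ≤ c₁ := by
    rw [hc]
    nlinarith
  have hlog4 : Real.log 4 = 2 * Real.log 2 := by
    rw [show (4 : ℝ) = 2 ^ 2 by norm_num, Real.log_pow]
    norm_num
  have hlog2 := Real.log_two_gt_d9
  have hc1' : (4 : ℝ) ≤ c₁ := by exact_mod_cast hc1
  have hC : 4 ≤ (c₁ : ℝ) * Real.log 4 := by
    rw [hlog4]
    nlinarith
  set C := (c₁ : ℝ) * Real.log 4 with hCdef
  have hB : 1 < 4 ^ c₁ := Nat.one_lt_pow (by omega) (by norm_num)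
  obtain ⟨N₀, hN₀⟩ := half_lower
  obtain ⟨n₁, hn₁⟩ := gr_le C hC
  refine ⟨max n₁ ((4 ^ c₁) ^ N₀), fun n hn => ?_⟩
  have hnn : (4 ^ c₁) ^ N₀ ≤ n := le_trans (le_max_right _ _) hn
  have hn0 : n ≠ 0 := by
    have : 0 < (4 ^ c₁) ^ N₀ := by positivity
    omega
  have hn0' : (0 : ℝ) < n := by exact_mod_cast Nat.pos_of_ne_zero hn0
  set N := Nat.log (4 ^ c₁) n with hN
  have h1 : (4 ^ c₁) ^ N ≤ n := Nat.pow_log_le_self _ hn0
  have h2 : n < (4 ^ c₁) ^ (N + 1) := Nat.lt_pow_succ_log_self hB n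
  have h3 : N₀ ≤ N := by
    rw [hN]
    exact (Nat.le_log_iff_pow_le hB hn0).2 hnn
  obtain ⟨m, hm⟩ : ∃ m, m = (Nat.primeCounting N - 1) / 2 := ⟨_, rfl⟩
  have h4 := hN₀ N h3
  rw [← hm] at h4
  have h1' : (N : ℝ) * C ≤ Real.log n := by
    have h5 : ((4 : ℝ) ^ c₁) ^ N ≤ n := by exact_mod_cast h1
    have h6 := Real.log_le_log (by positivity) h5
    rw [Real.log_pow, Real.log_pow] at h6
    exact h6
  have h2' : Real.log n ≤ (N + 1) * C := by
    have h5 : (n : ℝ) ≤ ((4 : ℝ) ^ c₁) ^ (N + 1) := by exact_mod_cast h2.le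
    have h6 := Real.log_le_log hn0' h5
    rw [Real.log_pow, Real.log_pow] at h6
    push_cast at h6
    exact h6
  have h7 := hn₁ n (le_trans (le_max_left _ _) hn) N m h2' h1' h4
  obtain ⟨p, hp, hp2, hpi, hprod⟩ := primes_exist N m hm
  have h5 : (∏ i, p i) ^ ((2 * g) * (2 * g)) ≤ n := by
    refine (Nat.pow_le_pow_left hprod _).trans ?_
    rw [← pow_mul, mul_comm N, pow_mul]
    exact h1
  have h6 := many_normal (⟨0, hg⟩ : Fin g) p hp hp2 hpi n h5
  refine le_trans ?_ h6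
  have h8 : ⌊Real.exp (1 / (200 * C ^ 2) * gr n)⌋₊ ≤ 2 ^ (m * m) := by
    apply Nat.floor_le_of_le
    push_cast
    have h9 : ((2 : ℝ) ^ (m * m)) = Real.exp (m * m * Real.log 2) := by
      rw [mul_comm ((m : ℝ) * m), Real.exp_mul, Real.exp_log (by norm_num)]
      rw [← Nat.cast_mul, Real.rpow_natCast]
    rw [h9]
    exact Real.exp_le_exp.2 h7
  exact_mod_cast h8

/-- **The gap theorem**, explicit form. -/
theorem gap_fast_normal {G : Type} [Group G] {c : ℝ} (hc : 0 < c) (hG : FastN G c) (h : ¬ CongruenceProperty G) :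
    ∃ n₀ : ℕ, ∀ n : ℕ, n₀ ≤ n → ((⌊Real.exp (c / 2 * gr n)⌋₊ : ℕ) : ℕ∞) ≤ ncNormalSubs G n := by
  obtain ⟨N, hN0, hNo, hNn, hN⟩ := exists_normal h
  obtain ⟨n₁, h1⟩ := hG
  set d := N.index with hd
  set l := Nat.log 2 d with hl
  have hd0 : 0 < d := Nat.pos_of_ne_zero hN0
  obtain ⟨x₁, hx₁⟩ := gr_gap c hc d l hd0
  refine ⟨max x₁ (d * (n₁ + 1)), fun x hx => ?_⟩
  have h2 := hx₁ x (le_trans (le_max_left _ _) hx) (x / d) rfl
  have h3 : n₁ ≤ x / d := by
    rw [Nat.le_div_iff_mul_le hd0]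
    have : d * (n₁ + 1) ≤ x := le_trans (le_max_right _ _) hx
    nlinarith
  have hx0 : 0 < x := by
    have : d * (n₁ + 1) ≤ x := le_trans (le_max_right _ _) hx
    have : 0 < d * (n₁ + 1) := Nat.mul_pos hd0 (Nat.succ_pos _)
    omega
  have h4 := h1 (x / d) h3
  have h5 := normalSubs_le N hN0 hNo hNn hN (x / d)
  have h6 : d * (x / d) ≤ x := Nat.mul_div_le x d
  have h7 : ((⌊Real.exp (c * gr ((x / d : ℕ) : ℝ))⌋₊ : ℕ) : ℕ∞) ≤ ((x ^ l : ℕ) : ℕ∞) * ncNormalSubs G x := by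
    refine h4.trans (h5.trans ?_)
    refine mul_le_mul' ?_ (ncNormalSubs_mono h6)
    exact_mod_cast Nat.pow_le_pow_left h6 l
  generalize ncNormalSubs G x = y at h7 ⊢
  induction y using ENat.recTopCoe with
  | top => exact le_top
  | coe y =>
    have h8 : ⌊Real.exp (c * gr ((x / d : ℕ) : ℝ))⌋₊ ≤ x ^ l * y := by exact_mod_cast h7
    have h9 : Real.exp (c * gr ((x / d : ℕ) : ℝ)) < (x : ℝ) ^ l * y + 1 := by
      have h10 := Nat.lt_floor_add_one (Real.exp (c * gr ((x / d : ℕ) : ℝ)))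
      have h11 : ((⌊Real.exp (c * gr ((x / d : ℕ) : ℝ))⌋₊ : ℕ) : ℝ) ≤ (x : ℝ) ^ l * y := by exact_mod_cast h8
      linarith
    have hxl : (1 : ℝ) ≤ (x : ℝ) ^ l := one_le_pow₀ (by exact_mod_cast hx0)
    have h12 : Real.exp (c / 2 * gr x) * (x : ℝ) ^ l < (x : ℝ) ^ l * y := by linarith
    have h13 : Real.exp (c / 2 * gr x) < y := by
      rw [mul_comm] at h12
      exact lt_of_mul_lt_mul_left h12 (by positivity)
    have h14 : ⌊Real.exp (c / 2 * gr x)⌋₊ ≤ y := Nat.floor_le_of_le h13.le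
    exact_mod_cast h14

end Pool.Agent.P8H25.CSP.Sf
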