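import Pool.Agent.P8H25.CSP.Grow2

/-!
# Many normal subgroups of the mapping class group
-/

set_option autoImplicit false

namespace Pool.Agent.P8H25.CSP.Sf

open Subgroup

variable {g : ℕ}

/-- The automorphism acts on all characters with values in `ℤ / p` by the sign `s`. -/
def Scal (p : ℕ) (φ : MulAut (SG g)) (s : ℤˣ) : Prop :=
  ∀ (χ : SG g →* Multiplicative (ZMod p)) (y : SG g), χ (φ y) = χ y ^ (s : ℤ)

lemma scal_of_gen {p : ℕ} {φ : MulAut (SG g)} {s : ℤˣ}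
    (h : ∀ (χ : SG g →* Multiplicative (ZMod p)) (c : Fin g ⊕ Fin g), χ (φ (gen c)) = χ (gen c) ^ (s : ℤ)) :
    Scal p φ s := by
  intro χ y
  have h1 : χ.comp φ.toMonoidHom = (zpowGroupHom (s : ℤ)).comp χ := hom_ext (fun c => h χ c)
  exact DFunLike.congr_fun h1 y

lemma Scal.one (p : ℕ) : Scal p (1 : MulAut (SG g)) 1 := by
  intro χ y
  simp

lemma Scal.mul {p : ℕ} {φ ψ : MulAut (SG g)} {s t : ℤˣ} (h1 : Scal p φ s) (h2 : Scal p ψ t) :
    Scal p (φ * ψ) (s * t) := by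
  intro χ y
  rw [MulAut.mul_apply, h1, h2, ← zpow_mul, Units.val_mul, mul_comm]

lemma Scal.inv {p : ℕ} {φ : MulAut (SG g)} {s : ℤˣ} (h1 : Scal p φ s) : Scal p φ⁻¹ s := by
  intro χ y
  have h2 := h1 χ (φ⁻¹ y)
  have h3 : φ (φ⁻¹ y) = y := MulAut.apply_inv_self (SG g) φ y
  rw [h3] at h2
  rw [h2, zpow_sign_sign]

lemma Scal.conj_inner (p : ℕ) (x : SG g) : Scal p (MulAut.conj x) 1 := by
  intro χ y
  rw [MulAut.conj_apply, map_mul, map_mul, map_inv, mul_comm (χ x), mul_assoc, mul_inv_cancel, mul_one]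
  simp

lemma Scal.conj {p : ℕ} {φ : MulAut (SG g)} {s : ℤˣ} (h1 : Scal p φ s) (θ : MulAut (SG g)) :
    Scal p (θ * φ * θ⁻¹) s := by
  intro χ y
  have h2 := h1 (χ.comp θ.toMonoidHom) (θ⁻¹ y)
  change χ (θ (φ (θ⁻¹ y))) = χ (θ (θ⁻¹ y)) ^ (s : ℤ) at h2
  have h3 : θ (θ⁻¹ y) = y := MulAut.apply_inv_self (SG g) θ y
  rw [h3] at h2
  exact h2

lemma scal_unique {p : ℕ} (i₀ : Fin g) [hp : Fact p.Prime] (hp2 : p ≠ 2) {φ : MulAut (SG g)} {s t : ℤˣ}
    (h1 : Scal p φ s) (h2 : Scal p φ t) : s = t := by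
  have h3 := h1 (dual p (Sum.inl i₀)) (gen (Sum.inl i₀))
  have h4 := h2 (dual p (Sum.inl i₀)) (gen (Sum.inl i₀))
  rw [h3, dual_gen, if_pos rfl] at h4
  have h5 := congrArg Multiplicative.toAdd h4
  rw [toAdd_zpow, toAdd_zpow, toAdd_ofAdd, zsmul_eq_mul, zsmul_eq_mul, mul_one, mul_one] at h5
  have h6 : (2 : ZMod p) ≠ 0 := by
    intro h
    have h7 : ((2 : ℕ) : ZMod p) = 0 := by exact_mod_cast h
    rw [ZMod.natCast_eq_zero_iff] at h7
    exact hp2 ((Nat.prime_dvd_prime_iff_eq hp.out Nat.prime_two).1 h7)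
  rcases Int.units_eq_one_or s with rfl | rfl <;> rcases Int.units_eq_one_or t with rfl | rfl
  · rfl
  · exfalso
    apply h6
    push_cast at h5
    linear_combination h5
  · exfalso
    apply h6
    push_cast at h5
    linear_combination -h5
  · rfl

/-- The sign on the handles in `T`. -/
def Part (T : Finset (Fin g)) (p : ℕ) (φ : MulAut (SG g)) (s : ℤˣ) : Prop :=
  ∀ χ : SG g →* Multiplicative (ZMod p),
    (∀ i, χ (φ (gen (Sum.inl i))) = if i ∈ T then χ (gen (Sum.inl i)) ^ (s : ℤ) else χ (gen (Sum.inl i))) ∧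
    (∀ i, χ (φ (gen (Sum.inr i))) = if i ∈ T then χ (gen (Sum.inr i)) ^ (s : ℤ) else χ (gen (Sum.inr i)))

lemma part_insert {T : Finset (Fin g)} {i₀ : Fin g} (hi : i₀ ∉ T) {p : ℕ} {φ ψ : MulAut (SG g)} {s : ℤˣ}
    (h1 : Part T p φ s) (h2 : Signs i₀ p ψ s) : Part (insert i₀ T) p (φ * ψ) s := by
  intro χ
  have h3 := h2 (χ.comp φ.toMonoidHom)
  have h4 := h1 χ
  constructor
  · intro i
    have h5 := h3.1 i
    have h6 := h4.1 i
    change χ (φ (ψ (gen (Sum.inl i)))) = if i = i₀ then χ (φ (gen (Sum.inl i))) ^ (s : ℤ) else χ (φ (gen (Sum.inl i))) at h5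
    show χ (φ (ψ (gen (Sum.inl i)))) = _
    rw [h5, h6]
    by_cases h : i = i₀
    · rw [if_pos h, h, if_neg hi, if_pos (Finset.mem_insert_self _ _)]
    · rw [if_neg h]
      simp only [Finset.mem_insert, h, false_or]
  · intro i
    have h5 := h3.2 i
    have h6 := h4.2 i
    change χ (φ (ψ (gen (Sum.inr i)))) = if i = i₀ then χ (φ (gen (Sum.inr i))) ^ (s : ℤ) else χ (φ (gen (Sum.inr i))) at h5
    show χ (φ (ψ (gen (Sum.inr i)))) = _
    rw [h5, h6]
    by_cases h : i = i₀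
    · rw [if_pos h, h, if_neg hi, if_pos (Finset.mem_insert_self _ _)]
    · rw [if_neg h]
      simp only [Finset.mem_insert, h, false_or]

section many

variable {k : ℕ} (p : Fin k ⊕ Fin k → ℕ)

lemma exists_part (hp : ∀ i, (p i).Prime) (hpi : Function.Injective p) (ε : Fin k ⊕ Fin k → ℤˣ)
    (T : Finset (Fin g)) : ∃ φ : MulAut (SG g), ∀ i, Part T (p i) φ (ε i) := by
  classical
  obtain ⟨e, he⟩ := crt p hp hpi ε
  induction T using Finset.induction_on with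
  | empty =>
    refine ⟨1, fun i χ => ⟨fun j => ?_, fun j => ?_⟩⟩
    · simp
    · simp
  | insert i₀ T hi ih =>
    obtain ⟨φ, hφ⟩ := ih
    exact ⟨φ * phi i₀ e, fun i => part_insert hi (hφ i) (signs_phi i₀ e (ε i) (he i))⟩

lemma exists_scal (hp : ∀ i, (p i).Prime) (hpi : Function.Injective p) (ε : Fin k ⊕ Fin k → ℤˣ) :
    ∃ φ : MulAut (SG g), ∀ i, Scal (p i) φ (ε i) := by
  obtain ⟨φ, hφ⟩ := exists_part (g := g) p hp hpi ε Finset.univ
  refine ⟨φ, fun i => scal_of_gen ?_⟩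
  rintro χ (c | c)
  · have := (hφ i χ).1 c
    rwa [if_pos (Finset.mem_univ _)] at this
  · have := (hφ i χ).2 c
    rwa [if_pos (Finset.mem_univ _)] at this

/-- The normal subgroups. -/
def HN (m : Fin k → Fin k → Bool) : Subgroup (MulAut (SG g)) where
  carrier := {φ | ∃ ε : Fin k ⊕ Fin k → ℤˣ, Rels m ε ∧ ∀ i, Scal (p i) φ (ε i)}
  one_mem' := ⟨fun _ => 1, fun j => by simp, fun i => Scal.one (p i)⟩
  mul_mem' := by
    rintro φ ψ ⟨ε, h1, h2⟩ ⟨δ, h3, h4⟩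
    refine ⟨fun i => ε i * δ i, fun j => ?_, fun i => (h2 i).mul (h4 i)⟩
    show ε (Sum.inr j) * δ (Sum.inr j) = ∏ i, (ε (Sum.inl i) * δ (Sum.inl i)) ^ (m i j).toNat
    rw [h1 j, h3 j, ← Finset.prod_mul_distrib]
    exact Finset.prod_congr rfl fun i _ => (mul_pow _ _ _).symm
  inv_mem' := by
    rintro φ ⟨ε, h1, h2⟩
    exact ⟨ε, h1, fun i => (h2 i).inv⟩

lemma HN_normal (m : Fin k → Fin k → Bool) : (HN (g := g) p m).Normal := by
  refine ⟨?_⟩
  rintro φ ⟨ε, h1, h2⟩ θ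
  exact ⟨ε, h1, fun i => (h2 i).conj θ⟩

lemma HN_outer (m : Fin k → Fin k → Bool) : Outer (HN (g := g) p m) :=
  fun x => ⟨fun _ => 1, fun j => by simp, fun i => Scal.conj_inner (p i) x⟩

lemma HN_index (i₀ : Fin g) (hp : ∀ i, (p i).Prime) (m : Fin k → Fin k → Bool) :
    (HN (g := g) p m).index ≠ 0 ∧ (HN (g := g) p m).index ≤ (∏ i, p i) ^ ((2 * g) * (2 * g)) := by
  have hz : ∀ i, NeZero (p i) := fun i => ⟨(hp i).ne_zero⟩
  have hinj : Function.Injective (fun q : MulAut (SG g) ⧸ HN (g := g) p m => mats p q.out) := by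
    intro q q' hq
    have h1 : (q.out)⁻¹ * q'.out ∈ HN (g := g) p m := by
      refine ⟨fun _ => 1, fun j => by simp, fun i => scal_of_gen ?_⟩
      have h2 := mats_sep i₀ p hp q.out q'.out hq i
      rintro χ (c | c)
      · rw [(h2 χ).1 c]
        simp
      · rw [(h2 χ).2 c]
        simp
    rw [← QuotientGroup.out_eq' q, ← QuotientGroup.out_eq' q']
    exact QuotientGroup.eq.2 h1
  have hfin : Finite (MulAut (SG g) ⧸ HN (g := g) p m) := Finite.of_injective _ hinj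
  refine ⟨index_ne_zero_of_finite, ?_⟩
  have h1 := Nat.card_le_card_of_injective _ hinj
  have h2 : Nat.card ((i : Fin k ⊕ Fin k) → Fin g ⊕ Fin g → Fin g ⊕ Fin g → ZMod (p i)) =
      (∏ i, p i) ^ ((2 * g) * (2 * g)) := by
    have hc : Nat.card (Fin g ⊕ Fin g) = 2 * g := by
      rw [Nat.card_eq_fintype_card, Fintype.card_sum, Fintype.card_fin]
      ring
    rw [Nat.card_pi, ← Finset.prod_pow]
    refine Finset.prod_congr rfl fun i _ => ?_
    rw [Nat.card_fun, Nat.card_fun, Nat.card_zmod, hc, ← pow_mul]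
  rw [h2] at h1
  exact h1

lemma HN_injective (i₀ : Fin g) (hp : ∀ i, (p i).Prime) (hp2 : ∀ i, p i ≠ 2) (hpi : Function.Injective p) :
    Function.Injective (HN (g := g) p) := by
  classical
  intro m m' hmm
  funext a j
  let ε : Fin k ⊕ Fin k → ℤˣ := Sum.elim (fun i => if i = a then -1 else 1)
    (fun j => ∏ i, (if i = a then (-1 : ℤˣ) else 1) ^ (m i j).toNat)
  obtain ⟨φ, h1⟩ := exists_scal (g := g) p hp hpi ε
  have h2 : φ ∈ HN (g := g) p m := ⟨ε, fun j => rfl, h1⟩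
  rw [hmm] at h2
  obtain ⟨δ, h3, h4⟩ := h2
  have h5 : ∀ i, δ i = ε i := by
    intro i
    have : Fact (p i).Prime := ⟨hp i⟩
    exact scal_unique i₀ (hp2 i) (h4 i) (h1 i)
  have h6 := h3 j
  rw [h5] at h6
  have h7 : ∀ n : Fin k → Fin k → Bool, ∏ i, (ε (Sum.inl i)) ^ (n i j).toNat = (-1 : ℤˣ) ^ (n a j).toNat := by
    intro n
    rw [Finset.prod_eq_single a]
    · show (if a = a then (-1 : ℤˣ) else 1) ^ (n a j).toNat = _
      rw [if_pos rfl]
    · intro i _ hi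
      show (if i = a then (-1 : ℤˣ) else 1) ^ (n i j).toNat = _
      rw [if_neg hi, one_pow]
    · intro h
      exact absurd (Finset.mem_univ _) h
  have h8 : ε (Sum.inr j) = (-1 : ℤˣ) ^ (m a j).toNat := h7 m
  have h9 : ∏ i, (δ (Sum.inl i)) ^ (m' i j).toNat = (-1 : ℤˣ) ^ (m' a j).toNat := by
    rw [← h7 m']
    exact Finset.prod_congr rfl fun i _ => by rw [h5]
  rw [h8, h9] at h6
  cases hm : m a j <;> cases hm' : m' a j <;> rw [hm, hm'] at h6 <;> first | rfl | (exfalso; revert h6; decide)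

end many

/-- **The number of the normal subgroups.** -/
theorem many_normal {g k : ℕ} (i₀ : Fin g) (p : Fin k ⊕ Fin k → ℕ) (hp : ∀ i, (p i).Prime) (hp2 : ∀ i, p i ≠ 2)
    (hpi : Function.Injective p) (n : ℕ)
    (hn : (∏ i, p i) ^ ((2 * g) * (2 * g)) ≤ n) : ((2 ^ (k * k) : ℕ) : ℕ∞) ≤ normalSubs (SG g) n := by
  classical
  have h1 : Set.range (HN (g := g) p) ⊆
      {H : Subgroup (MulAut (SG g)) | H.Normal ∧ Outer H ∧ H.index ≠ 0 ∧ H.index ≤ n} := by
    rintro _ ⟨m, rfl⟩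
    exact ⟨HN_normal p m, HN_outer p m, (HN_index p i₀ hp m).1, (HN_index p i₀ hp m).2.trans hn⟩
  refine le_trans ?_ (Set.encard_le_encard h1)
  rw [← Set.image_univ, (HN_injective p i₀ hp hp2 hpi).encard_image, Set.encard_univ,
    ENat.card_eq_coe_natCard, Nat.card_fun, Nat.card_fun]
  simp only [Nat.card_eq_fintype_card, Fintype.card_fin, Fintype.card_bool]
  rw [pow_mul]

end Pool.Agent.P8H25.CSP.Sf
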