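import Pool.Agent.P8H25.CSP.Pers

/-!
# Congruence subgroups of the outer automorphism group
-/

set_option autoImplicit false

namespace Pool.Agent.P8H25.CSP

open Subgroup

variable {G : Type} [Group G]

/-- `H` contains the inner automorphisms: it is the inverse image in `Aut (G)` of a subgroup of `Out (G)`. -/
def Outer (H : Subgroup (MulAut G)) : Prop := ∀ x : G, MulAut.conj x ∈ H

/-- `H` contains, for some characteristic subgroup `Γ` of finite index of `G`, all automorphisms of `G`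
which act on `G / Γ` as inner automorphisms: the image of `H` in `Out (G)` contains the kernel of
`Out (G) → Out (G / Γ)`. -/
def Congruence (H : Subgroup (MulAut G)) : Prop :=
  ∃ Γ : Subgroup G, Γ.Characteristic ∧ Γ.FiniteIndex ∧
    ∀ φ : MulAut G, (∃ h : G, ∀ x : G, φ x * (h * x * h⁻¹)⁻¹ ∈ Γ) → φ ∈ H

/-- Every subgroup of finite index of `Out (G)` contains a congruence subgroup. -/
def CongruenceProperty (G : Type) [Group G] : Prop :=
  ∀ H : Subgroup (MulAut G), H.FiniteIndex → (∀ x : G, MulAut.conj x ∈ H) → Congruence H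

lemma Congruence.outer {H : Subgroup (MulAut G)} (h : Congruence H) : Outer H := by
  obtain ⟨Γ, _, _, hΓ⟩ := h
  intro x
  refine hΓ _ ⟨x, fun y => ?_⟩
  rw [MulAut.conj_apply, mul_inv_cancel]
  exact one_mem _

lemma congClass : CongClass (Congruence (G := G)) where
  mono := by
    rintro H K hHK ⟨Γ, h1, h2, h3⟩
    exact ⟨Γ, h1, h2, fun φ hφ => hHK (h3 φ hφ)⟩
  inf := by
    rintro H K ⟨Γ, h1, h2, h3⟩ ⟨Γ', h1', h2', h3'⟩
    refine ⟨Γ ⊓ Γ', ?_, ?_, ?_⟩
    · refine ⟨fun φ => ?_⟩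
      rw [comap_inf, h1.fixed φ, h1'.fixed φ]
    · exact ⟨index_inf_ne_zero h2.index_ne_zero h2'.index_ne_zero⟩
    · rintro φ ⟨h, hh⟩
      exact ⟨h3 φ ⟨h, fun x => (hh x).1⟩, h3' φ ⟨h, fun x => (hh x).2⟩⟩
  top := ⟨⊤, inferInstance, inferInstance, fun _ _ => trivial⟩
  conj := by
    rintro H a ⟨Γ, h1, h2, h3⟩
    refine ⟨Γ, h1, h2, ?_⟩
    rintro φ ⟨h, hh⟩
    refine ⟨a⁻¹ * φ * a, h3 _ ⟨a⁻¹ h, fun x => ?_⟩, ?_⟩
    · have h4 : a⁻¹ (φ (a x) * (h * (a x) * h⁻¹)⁻¹) ∈ Γ := by
        have h5 := h1.fixed a⁻¹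
        have h6 := hh (a x)
        rw [← h5] at h6
        exact h6
      have h7 : (a⁻¹ * φ * a) x * (a⁻¹ h * x * (a⁻¹ h)⁻¹)⁻¹ = a⁻¹ (φ (a x) * (h * (a x) * h⁻¹)⁻¹) := by
        have h8 : a⁻¹ (a x) = x := MulAut.inv_apply_self G a x
        simp only [MulAut.mul_apply, map_mul, map_inv, h8]
      rw [h7]
      exact h4
    · simp [mul_assoc]

lemma Outer.mono {H K : Subgroup (MulAut G)} (hHK : H ≤ K) (h : Outer H) : Outer K := fun x => hHK (h x)

lemma Outer.core {H : Subgroup (MulAut G)} (h : Outer H) : Outer H.normalCore := by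
  intro x φ
  have : φ * MulAut.conj x * φ⁻¹ = MulAut.conj (φ x) := by
    ext y
    simp
  rw [this]
  exact h _

/-- The number of subgroups of `Out (G)` of index at most `n`. -/
noncomputable def subs (G : Type) [Group G] (n : ℕ) : ℕ∞ :=
  {H : Subgroup (MulAut G) | Outer H ∧ H.index ≠ 0 ∧ H.index ≤ n}.encard

/-- The number of subgroups of `Out (G)` of index at most `n` which are not congruence subgroups. -/
noncomputable def ncSubs (G : Type) [Group G] (n : ℕ) : ℕ∞ :=
  {H : Subgroup (MulAut G) | Outer H ∧ ¬ Congruence H ∧ H.index ≠ 0 ∧ H.index ≤ n}.encard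

/-- The number of normal subgroups of `Out (G)` of index at most `n`. -/
noncomputable def normalSubs (G : Type) [Group G] (n : ℕ) : ℕ∞ :=
  {H : Subgroup (MulAut G) | H.Normal ∧ Outer H ∧ H.index ≠ 0 ∧ H.index ≤ n}.encard

/-- The number of normal subgroups of `Out (G)` of index at most `n` which are not congruence subgroups. -/
noncomputable def ncNormalSubs (G : Type) [Group G] (n : ℕ) : ℕ∞ :=
  {H : Subgroup (MulAut G) | H.Normal ∧ Outer H ∧ ¬ Congruence H ∧ H.index ≠ 0 ∧ H.index ≤ n}.encard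

theorem subs_le (N : Subgroup (MulAut G)) (hN0 : N.index ≠ 0) (hNo : Outer N) (hN : ¬ Congruence N) (n : ℕ) :
    subs G n ≤ (((N.index * n) ^ Nat.log 2 N.index : ℕ) : ℕ∞) * ncSubs G (N.index * n) := by
  refine frequency Congruence congClass.mono N hN0 hN {H | Outer H} ?_ n
  intro K hK x
  exact ⟨hK x, hNo x⟩

theorem normalSubs_le (N : Subgroup (MulAut G)) (hN0 : N.index ≠ 0) (hNo : Outer N) (hNn : N.Normal)
    (hN : ¬ Congruence N) (n : ℕ) :
    normalSubs G n ≤ (((N.index * n) ^ Nat.log 2 N.index : ℕ) : ℕ∞) * ncNormalSubs G (N.index * n) := by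
  have h := frequency Congruence congClass.mono N hN0 hN {H | H.Normal ∧ Outer H} ?_ n
  · refine le_trans (le_of_eq ?_) (h.trans (le_of_eq ?_))
    · unfold normalSubs
      congr 1
      ext K
      exact ⟨fun h => ⟨⟨h.1, h.2.1⟩, h.2.2⟩, fun h => ⟨h.1.1, h.1.2, h.2⟩⟩
    · unfold ncNormalSubs
      congr 2
      ext K
      exact ⟨fun h => ⟨h.1.1, h.1.2, h.2⟩, fun h => ⟨⟨h.1, h.2.1⟩, h.2.2⟩⟩
  · rintro K ⟨hKn, hKo⟩
    refine ⟨?_, fun x => ⟨hKo x, hNo x⟩⟩
    haveI := hKn
    haveI := hNn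
    infer_instance

/-- **The frequency criterion.** -/
theorem csp_iff_rare : CongruenceProperty G ↔ ∀ d : ℕ, d ≠ 0 → ∃ n : ℕ,
    (((d * n) ^ Nat.log 2 d : ℕ) : ℕ∞) * ncSubs G (d * n) < subs G n := by
  constructor
  · intro h d _
    refine ⟨1, ?_⟩
    have h1 : ncSubs G (d * 1) = 0 := by
      unfold ncSubs
      rw [Set.encard_eq_zero, Set.eq_empty_iff_forall_notMem]
      rintro H ⟨h2, h3, h4, _⟩
      exact h3 (h H ⟨h4⟩ h2)
    rw [h1, mul_zero]
    unfold subs
    rw [Set.encard_pos]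
    exact ⟨⊤, fun _ => trivial, by simp, by simp⟩
  · intro h H hH hHo
    by_contra hc
    obtain ⟨n, hn⟩ := h H.index hH.index_ne_zero
    exact absurd hn (not_lt.2 (subs_le H hH.index_ne_zero hHo hc n))

/-- **The frequency criterion for normal subgroups.** -/
theorem csp_iff_rare_normal : CongruenceProperty G ↔ ∀ d : ℕ, d ≠ 0 → ∃ n : ℕ,
    (((d * n) ^ Nat.log 2 d : ℕ) : ℕ∞) * ncNormalSubs G (d * n) < normalSubs G n := by
  constructor
  · intro h d _
    refine ⟨1, ?_⟩
    have h1 : ncNormalSubs G (d * 1) = 0 := by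
      unfold ncNormalSubs
      rw [Set.encard_eq_zero, Set.eq_empty_iff_forall_notMem]
      rintro H ⟨_, h2, h3, h4, _⟩
      exact h3 (h H ⟨h4⟩ h2)
    rw [h1, mul_zero]
    unfold normalSubs
    rw [Set.encard_pos]
    exact ⟨⊤, inferInstance, fun _ => trivial, by simp, by simp⟩
  · intro h H hH hHo
    by_contra hc
    have h0 : H.normalCore.index ≠ 0 :=
      (inferInstance : H.normalCore.FiniteIndex).index_ne_zero
    have h1 : ¬ Congruence H.normalCore := fun h2 => hc (congClass.mono _ _ (normalCore_le H) h2)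
    obtain ⟨n, hn⟩ := h H.normalCore.index h0
    exact absurd hn (not_lt.2 (normalSubs_le H.normalCore h0 (Outer.core hHo) inferInstance h1 n))

/-- The surjection `f` of the congruence subgroup `H` onto `Q` remains surjective on all congruence
subgroups contained in `H`. -/
def Persistent (H : Subgroup (MulAut G)) {Q : Type} [Group Q] (f : H →* Q) : Prop :=
  ∀ H' : Subgroup (MulAut G), H' ≤ H → Congruence H' → (H'.subgroupOf H).map f = ⊤

/-- A congruence subgroup has finite index. -/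
lemma Congruence.index_ne_zero {H : Subgroup (MulAut G)} (h : Congruence H) : H.index ≠ 0 := by
  obtain ⟨Γ, h1, h2, h3⟩ := h
  have hfin : Finite (G ⧸ Γ) := inferInstance
  refine index_ne_zero_of H (fun φ : MulAut G => fun q : G ⧸ Γ => ((φ q.out : G) : G ⧸ Γ)) ?_
  intro a b hab
  apply h3
  refine ⟨1, fun x => ?_⟩
  have h4 : ∀ y : G, (a y)⁻¹ * b y ∈ Γ := by
    intro y
    have h5 : ((a (y : G ⧸ Γ).out : G) : G ⧸ Γ) = ((b (y : G ⧸ Γ).out : G) : G ⧸ Γ) := congrFun hab (y : G ⧸ Γ)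
    have h6 := QuotientGroup.eq.1 h5
    have h7 : ((y : G ⧸ Γ).out)⁻¹ * y ∈ Γ := QuotientGroup.eq.1 (QuotientGroup.out_eq' (y : G ⧸ Γ))
    set z := (y : G ⧸ Γ).out with hz
    have h8 : ∀ φ : MulAut G, φ (z⁻¹ * y) ∈ Γ := by
      intro φ
      have h9 := h1.fixed φ
      rw [← h9] at h7
      exact h7
    have h10 : (a y)⁻¹ * b y = (a (z⁻¹ * y))⁻¹ * ((a z)⁻¹ * b z) * b (z⁻¹ * y) := by
      simp only [map_mul, map_inv]
      group
    rw [h10]
    exact mul_mem (mul_mem (inv_mem (h8 a)) h6) (h8 b)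
  have h11 := h4 x
  have h12 : a⁻¹ ((a x)⁻¹ * b x) ∈ Γ := by
    have h9 := h1.fixed a⁻¹
    rw [← h9] at h11
    exact h11
  have h13 : a⁻¹ (a x) = x := MulAut.inv_apply_self G a x
  have h14 : a⁻¹ ((a x)⁻¹ * b x) = x⁻¹ * (a⁻¹ * b) x := by
    simp only [map_mul, map_inv, MulAut.mul_apply, h13]
  rw [h14] at h12
  have h15 : (a⁻¹ * b) x * (1 * x * 1⁻¹)⁻¹ = x * (x⁻¹ * (a⁻¹ * b) x) * x⁻¹ := by
    group
  rw [h15]
  exact (inferInstance : Γ.Normal).conj_mem _ h12 x

/-- **If the congruence subgroup property fails** -/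
theorem not_csp (h : ¬ CongruenceProperty G) : ∃ H : Subgroup (MulAut G), Congruence H ∧ H.Normal ∧
    ∃ (Q : Type) (_ : Group Q), Finite Q ∧ IsSimpleGroup Q ∧ ∃ f : H →* Q, Function.Surjective f ∧
      (∀ (x : G) (y : H), (y : MulAut G) = MulAut.conj x → f y = 1) ∧ Persistent H f ∧
      ∀ n : ℕ, n ≠ 0 →
        {K : Subgroup (MulAut G) | K ≤ H ∧ Congruence K ∧ K.relIndex H = n}.encard ≤
          {K : Subgroup (MulAut G) | K ≤ H ∧ Outer K ∧ ¬ Congruence K ∧
            K.relIndex H = n * Nat.card Q}.encard := by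
  classical
  unfold CongruenceProperty at h
  push Not at h
  obtain ⟨N, hNf, hNo, hN⟩ := h
  obtain ⟨H, hH, hHn, hNH, L, hLn, hL0, hLt, hNL, hmax, hp⟩ := persist congClass N hNf.index_ne_zero hN
  have hcore : Outer N.normalCore := Outer.core hNo
  have hLo : ∀ (x : G) (y : H), (y : MulAut G) = MulAut.conj x → y ∈ L := by
    intro x y hy
    apply hNL
    rw [mem_subgroupOf, hy]
    exact hcore x
  have hfin : Finite (H ⧸ L) := by
    have : L.FiniteIndex := ⟨hL0⟩
    infer_instance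
  refine ⟨H, hH, hHn, H ⧸ L, inferInstance, hfin, simple_quotient L hLt hmax, QuotientGroup.mk' L,
    QuotientGroup.mk'_surjective L, ?_, ?_, ?_⟩
  · intro x y hy
    exact (QuotientGroup.eq_one_iff y).2 (hLo x y hy)
  · intro H' hH' hc
    exact map_mk_top L _ (hp (H'.subgroupOf H) (by rw [map_sub_of H H' hH']; exact hc))
  · intro n hn
    exact frequency_sub Congruence Outer congClass.inf H L hL0 hLt hp
      (fun K hK x => by
        obtain ⟨y, hy, hyx⟩ := hK.outer x
        exact ⟨y, ⟨hy, hLo x y hyx⟩, hyx⟩) n hn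

/-- **The criterion with simple quotients.** -/
theorem csp_iff_simple : CongruenceProperty G ↔ ∀ H : Subgroup (MulAut G), Congruence H → H.Normal →
    ∀ (Q : Type) [Group Q], Finite Q → IsSimpleGroup Q → ∀ f : H →* Q, Function.Surjective f →
      (∀ (x : G) (y : H), (y : MulAut G) = MulAut.conj x → f y = 1) →
      ∃ H' : Subgroup (MulAut G), H' ≤ H ∧ Congruence H' ∧ (H'.subgroupOf H).map f ≠ ⊤ := by
  constructor
  · intro h H hH _ Q _ hQ hQs f hf hfo
    refine ⟨f.ker.map H.subtype, map_le H _, ?_, ?_⟩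
    · apply h
      · refine ⟨?_⟩
        have h1 : f.ker.index ≠ 0 := by
          rw [index_ker]
          have : Finite f.range := inferInstance
          exact Nat.card_pos.ne'
        rw [← relIndex_mul_index (map_le H f.ker), relIndex_map]
        exact mul_ne_zero h1 hH.index_ne_zero
      · intro x
        exact ⟨⟨MulAut.conj x, hH.outer x⟩, hfo x _ rfl, rfl⟩
    · intro hc
      have := hQs
      obtain ⟨q, hq⟩ := exists_ne (1 : Q)
      rw [sub_of_map] at hc
      have h1 : q ∈ f.ker.map f := by rw [hc]; trivial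
      obtain ⟨y, hy, hyq⟩ := h1
      exact hq (by rw [← hyq]; exact hy)
  · intro h
    by_contra hc
    obtain ⟨H, hH, hHn, Q, hQg, hQf, hQs, f, hf, hfo, hp, _⟩ := not_csp hc
    obtain ⟨H', hH', hcH', hne⟩ := h H hH hHn Q hQf hQs f hf hfo
    exact hne (hp H' hH' hcH')

end Pool.Agent.P8H25.CSP
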