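import Pool.Agent.P8H25.CSP.Gen

/-!
# Surjections onto finite simple groups which persist on all congruence subgroups
-/

set_option autoImplicit false

namespace Pool.Agent.P8H25.CSP

open Subgroup

variable {A : Type*} [Group A]

/-- The properties of the congruence subgroups of a group which are used. -/
structure CongClass (P : Subgroup A → Prop) : Prop where
  mono : ∀ H K : Subgroup A, H ≤ K → P H → P K
  inf : ∀ H K : Subgroup A, P H → P K → P (H ⊓ K)
  top : P ⊤
  conj : ∀ (H : Subgroup A) (a : A), P H → P (H.map (MulAut.conj a).toMonoidHom)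

lemma eq_of_index {H K : Subgroup A} (h : H ≤ K) (hH : H.index ≠ 0) (hi : H.index ≤ K.index) : H = K := by
  refine le_antisymm h ?_
  have h1 := relIndex_mul_index h
  have h2 : H.relIndex K ≠ 0 := by
    intro h3
    rw [h3, zero_mul] at h1
    exact hH h1.symm
  have h4 : K.index ≠ 0 := by
    intro h3
    rw [h3, mul_zero] at h1
    exact hH h1.symm
  have h5 : H.relIndex K = 1 := by
    by_contra h6
    have h7 : 2 ≤ H.relIndex K := by omega
    have h8 : 2 * K.index ≤ H.relIndex K * K.index := Nat.mul_le_mul_right _ h7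
    omega
  exact relIndex_eq_one.1 h5

/-- The smallest subgroup with the property containing a given normal subgroup of finite index. -/
lemma least {P : Subgroup A → Prop} (hP : CongClass P) (N : Subgroup A) [hNn : N.Normal] (hN : N.index ≠ 0) :
    ∃ H : Subgroup A, P H ∧ N ≤ H ∧ H.Normal ∧ ∀ K : Subgroup A, P K → N ≤ K → H ≤ K := by
  classical
  have hbd : ∀ K : Subgroup A, N ≤ K → K.index ≠ 0 ∧ K.index ≤ N.index := by
    intro K hK
    have h1 := index_dvd_of_le hK
    exact ⟨fun h => hN (by rw [h] at h1; exact Nat.eq_zero_of_zero_dvd h1),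
      Nat.le_of_dvd (Nat.pos_of_ne_zero hN) h1⟩
  obtain ⟨H, hH, hmin⟩ := WellFounded.has_min (measure (fun H : Subgroup A => N.index - H.index)).wf
    {H : Subgroup A | P H ∧ N ≤ H} ⟨⊤, hP.top, le_top⟩
  have hleast : ∀ K : Subgroup A, P K → N ≤ K → H ≤ K := by
    intro K hK hNK
    have h1 : P (H ⊓ K) ∧ N ≤ H ⊓ K := ⟨hP.inf _ _ hH.1 hK, le_inf hH.2 hNK⟩
    have h2 := hmin (H ⊓ K) h1
    have h3 : ¬ (N.index - (H ⊓ K).index < N.index - H.index) := h2
    have h4 := hbd _ h1.2
    have h5 := hbd _ hH.2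
    have h6 : (H ⊓ K).index ≤ H.index := by omega
    have h7 := eq_of_index (inf_le_left : H ⊓ K ≤ H) h4.1 h6
    rw [← h7]
    exact inf_le_right
  refine ⟨H, hH.1, hH.2, ⟨fun h hh a => ?_⟩, hleast⟩
  have h1 : H ≤ H.map (MulAut.conj a⁻¹).toMonoidHom := by
    apply hleast
    · exact hP.conj _ _ hH.1
    · intro x hx
      refine ⟨a * x * a⁻¹, hH.2 (hNn.conj_mem x hx a), ?_⟩
      simp [mul_assoc]
  obtain ⟨y, hy, hyx⟩ := h1 hh
  have h2 : a * h * a⁻¹ = y := by
    rw [← hyx]
    simp [mul_assoc]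
  rw [h2]
  exact hy

/-- **Persistence.** -/
theorem persist {P : Subgroup A → Prop} (hP : CongClass P) (N : Subgroup A) (hN : N.index ≠ 0) (hNP : ¬ P N) :
    ∃ H : Subgroup A, P H ∧ H.Normal ∧ N.normalCore ≤ H ∧ ∃ L : Subgroup H, L.Normal ∧ L.index ≠ 0 ∧ L ≠ ⊤ ∧
      N.normalCore.subgroupOf H ≤ L ∧ (∀ K : Subgroup H, K.Normal → L ≤ K → K = L ∨ K = ⊤) ∧
      ∀ K : Subgroup H, P (K.map H.subtype) → K ⊔ L = ⊤ := by
  classical
  have hN0 : N.normalCore.index ≠ 0 := by
    haveI : N.FiniteIndex := ⟨hN⟩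
    exact (inferInstance : N.normalCore.FiniteIndex).index_ne_zero
  have hN0P : ¬ P N.normalCore := fun h => hNP (hP.mono _ _ (normalCore_le N) h)
  obtain ⟨H, hPH, hNH, hHn, hleast⟩ := least hP N.normalCore hN0
  have hne : (N.normalCore.subgroupOf H) ≠ ⊤ := by
    intro h
    rw [subgroupOf_eq_top] at h
    exact hN0P (by rw [le_antisymm hNH h]; exact hPH)
  have hidx : (N.normalCore.subgroupOf H).index ≠ 0 := by
    intro h
    exact hN0 (index_eq_zero_of_relIndex_eq_zero h)
  obtain ⟨L, hL, hmin⟩ := WellFounded.has_min (measure (fun L : Subgroup H => L.index)).wf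
    {L : Subgroup H | L.Normal ∧ L ≠ ⊤ ∧ N.normalCore.subgroupOf H ≤ L}
    ⟨N.normalCore.subgroupOf H, inferInstance, hne, le_rfl⟩
  have hLi : ∀ K : Subgroup H, N.normalCore.subgroupOf H ≤ K → K.index ≠ 0 := by
    intro K hK h
    have h1 := index_dvd_of_le hK
    rw [h] at h1
    exact hidx (Nat.eq_zero_of_zero_dvd h1)
  refine ⟨H, hPH, hHn, hNH, L, hL.1, hLi L hL.2.2, hL.2.1, hL.2.2, ?_, ?_⟩
  · intro K hKn hLK
    by_cases hK : K = ⊤
    · exact Or.inr hK
    · left
      have h1 : ¬ (K.index < L.index) := hmin K ⟨hKn, hK, hL.2.2.trans hLK⟩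
      exact (eq_of_index hLK (hLi L hL.2.2) (by omega)).symm
  · intro K hK
    have h1 : P ((K ⊔ L).map H.subtype) := hP.mono _ _ (map_mono le_sup_left) hK
    have h2 : N.normalCore ≤ (K ⊔ L).map H.subtype := by
      intro x hx
      exact ⟨⟨x, hNH hx⟩, (le_sup_right : L ≤ K ⊔ L) (hL.2.2 hx), rfl⟩
    have h3 := hleast _ h1 h2
    rw [eq_top_iff]
    intro x _
    obtain ⟨y, hy, hyx⟩ := h3 x.2
    have : y = x := Subtype.ext hyx
    rw [← this]
    exact hy

section Exact

variable {B : Type*} [Group B]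

lemma index_inf (L K : Subgroup B) [L.Normal] (h : K ⊔ L = ⊤) : (K ⊓ L).index = K.index * L.index := by
  have h1 := relIndex_mul_index (inf_le_left : K ⊓ L ≤ K)
  rw [inf_relIndex_left, ← relIndex_sup_right K L, h, relIndex_top_right] at h1
  rw [← h1, mul_comm]

/-- **Frequency, with exact indices.** -/
theorem frequency_exact (P : Subgroup B → Prop) (hinf : ∀ H K : Subgroup B, P H → P K → P (H ⊓ K))
    (L : Subgroup B) [L.Normal] (hL0 : L.index ≠ 0) (hL : L ≠ ⊤) (hp : ∀ K : Subgroup B, P K → K ⊔ L = ⊤)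
    (R : Subgroup B → Prop) (hR : ∀ K : Subgroup B, P K → R (K ⊓ L)) (n : ℕ) (hn : n ≠ 0) :
    {K : Subgroup B | P K ∧ K.index = n}.encard ≤
      {K : Subgroup B | R K ∧ ¬ P K ∧ K.index = n * L.index}.encard := by
  classical
  refine Set.encard_le_encard_of_injOn (f := fun K => K ⊓ L) ?_ ?_
  · rintro K ⟨hK, hKn⟩
    refine ⟨hR K hK, fun h => hL ?_, ?_⟩
    · have h1 := hp _ h
      have h2 : (K ⊓ L) ⊔ L = L := sup_eq_right.2 inf_le_right
      rw [← h2]
      exact h1
    · show (K ⊓ L).index = n * L.index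
      rw [index_inf L K (hp K hK), hKn]
  · rintro K₁ ⟨h1, h1n⟩ K₂ ⟨h2, h2n⟩ h12
    have h12' : K₁ ⊓ L = K₂ ⊓ L := h12
    have h3 : P (K₁ ⊓ K₂) := hinf _ _ h1 h2
    have h4 : K₁ ⊓ K₂ ⊓ L = K₁ ⊓ L := by
      rw [inf_assoc, ← h12', ← inf_assoc, inf_idem]
    have h5 := index_inf L _ (hp _ h3)
    rw [h4, index_inf L K₁ (hp _ h1)] at h5
    have h6 : K₁.index = (K₁ ⊓ K₂).index := Nat.eq_of_mul_eq_mul_right (Nat.pos_of_ne_zero hL0) h5
    have h7 : (K₁ ⊓ K₂).index ≠ 0 := by rw [← h6, h1n]; exact hn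
    have h8 : K₁ ⊓ K₂ = K₁ := eq_of_index inf_le_left h7 h6.symm.le
    have h9 : K₁ ⊓ K₂ = K₂ := eq_of_index inf_le_right h7 (by rw [← h6, h1n, h2n])
    exact h8.symm.trans h9

end Exact

lemma map_mk_top {B : Type*} [Group B] (L K : Subgroup B) [L.Normal] (h : K ⊔ L = ⊤) :
    K.map (QuotientGroup.mk' L) = ⊤ := by
  rw [eq_top_iff]
  intro q _
  obtain ⟨x, rfl⟩ := QuotientGroup.mk'_surjective L q
  have hx : x ∈ L ⊔ K := by rw [sup_comm, h]; trivial
  obtain ⟨l, hl, y, hy, hly⟩ := mem_sup_of_normal_left.1 hx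
  refine ⟨y, hy, ?_⟩
  rw [← hly, map_mul]
  have : QuotientGroup.mk' L l = 1 := (QuotientGroup.eq_one_iff l).2 hl
  rw [this, one_mul]

lemma map_sub_of (H K : Subgroup A) (h : K ≤ H) : (K.subgroupOf H).map H.subtype = K := by
  rw [subgroupOf_map_subtype]
  exact inf_eq_left.2 h

lemma map_le (H : Subgroup A) (K : Subgroup H) : K.map H.subtype ≤ H := by
  rintro _ ⟨y, _, rfl⟩
  exact y.2

lemma sub_of_map (H : Subgroup A) (K : Subgroup H) : (K.map H.subtype).subgroupOf H = K := by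
  ext y
  rw [mem_subgroupOf]
  constructor
  · rintro ⟨z, hz, hzy⟩
    have : z = y := Subtype.ext hzy
    rw [← this]
    exact hz
  · intro hy
    exact ⟨y, hy, rfl⟩

lemma relIndex_map (H : Subgroup A) (K : Subgroup H) : (K.map H.subtype).relIndex H = K.index := by
  show ((K.map H.subtype).subgroupOf H).index = K.index
  rw [sub_of_map]

/-- Frequency with exact indices, for the subgroups of a subgroup. -/
theorem frequency_sub (P R : Subgroup A → Prop) (hinf : ∀ H K : Subgroup A, P H → P K → P (H ⊓ K))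
    (H : Subgroup A) (L : Subgroup H) [L.Normal] (hL0 : L.index ≠ 0) (hL : L ≠ ⊤)
    (hp : ∀ K : Subgroup H, P (K.map H.subtype) → K ⊔ L = ⊤)
    (hR : ∀ K : Subgroup H, P (K.map H.subtype) → R ((K ⊓ L).map H.subtype)) (n : ℕ) (hn : n ≠ 0) :
    {K : Subgroup A | K ≤ H ∧ P K ∧ K.relIndex H = n}.encard ≤
      {K : Subgroup A | K ≤ H ∧ R K ∧ ¬ P K ∧ K.relIndex H = n * L.index}.encard := by
  classical
  have h1 := frequency_exact (B := H) (fun K => P (K.map H.subtype))
    (fun K₁ K₂ h1 h2 => by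
      show P ((K₁ ⊓ K₂).map H.subtype)
      rw [map_inf_eq _ _ _ H.subtype_injective]
      exact hinf _ _ h1 h2) L hL0 hL hp (fun K => R (K.map H.subtype)) hR n hn
  have h2 : {K : Subgroup A | K ≤ H ∧ P K ∧ K.relIndex H = n}.encard ≤
      {K : Subgroup H | P (K.map H.subtype) ∧ K.index = n}.encard := by
    refine Set.encard_le_encard_of_injOn (f := fun K => K.subgroupOf H) ?_ ?_
    · rintro K ⟨h3, h4, h5⟩
      refine ⟨?_, h5⟩
      show P ((K.subgroupOf H).map H.subtype)
      rw [map_sub_of H K h3]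
      exact h4
    · rintro K₁ ⟨h3, _⟩ K₂ ⟨h4, _⟩ h5
      have h6 : K₁.subgroupOf H = K₂.subgroupOf H := h5
      rw [← map_sub_of H K₁ h3, ← map_sub_of H K₂ h4, h6]
  have h3 : {K : Subgroup H | R (K.map H.subtype) ∧ ¬ P (K.map H.subtype) ∧
      K.index = n * L.index}.encard ≤ {K : Subgroup A | K ≤ H ∧ R K ∧ ¬ P K ∧
          K.relIndex H = n * L.index}.encard := by
    refine Set.encard_le_encard_of_injOn (f := fun K => K.map H.subtype) ?_ ?_
    · rintro K ⟨h3, h4, h5⟩
      refine ⟨map_le H K, h3, h4, ?_⟩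
      show (K.map H.subtype).relIndex H = n * L.index
      rw [← h5, relIndex_map]
    · intro K₁ _ K₂ _ h12
      exact map_injective H.subtype_injective h12
  exact h2.trans (h1.trans h3)

/-- A subgroup has finite index if a function with finitely many values separates its cosets. -/
lemma index_ne_zero_of {Y : Type*} [Finite Y] (H : Subgroup A) (F : A → Y)
    (h : ∀ a b : A, F a = F b → a⁻¹ * b ∈ H) : H.index ≠ 0 := by
  have : Finite (A ⧸ H) := by
    refine Finite.of_injective (fun q : A ⧸ H => F q.out) ?_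
    intro q q' hq
    have h1 := h _ _ hq
    rw [← QuotientGroup.out_eq' q, ← QuotientGroup.out_eq' q']
    exact QuotientGroup.eq.2 h1
  exact index_ne_zero_of_finite

/-- The quotient by a maximal normal subgroup is simple. -/
lemma simple_quotient {B : Type*} [Group B] (L : Subgroup B) [hLn : L.Normal] (hL : L ≠ ⊤)
    (hmax : ∀ K : Subgroup B, K.Normal → L ≤ K → K = L ∨ K = ⊤) : IsSimpleGroup (B ⧸ L) := by
  haveI : Nontrivial (B ⧸ L) := by
    obtain ⟨x, hx⟩ : ∃ x, x ∉ L := by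
      by_contra h
      push Not at h
      exact hL (eq_top_iff.2 fun x _ => h x)
    refine ⟨⟨(x : B ⧸ L), 1, fun h => hx ?_⟩⟩
    exact (QuotientGroup.eq_one_iff x).1 h
  refine ⟨fun K hK => ?_⟩
  have h1 : L ≤ K.comap (QuotientGroup.mk' L) := by
    intro x hx
    rw [mem_comap]
    have : QuotientGroup.mk' L x = 1 := (QuotientGroup.eq_one_iff x).2 hx
    rw [this]
    exact one_mem _
  rcases hmax (K.comap (QuotientGroup.mk' L)) (hK.comap _) h1 with h | h
  · left
    rw [eq_bot_iff]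
    intro y hy
    obtain ⟨x, rfl⟩ := QuotientGroup.mk'_surjective L y
    have h2 : x ∈ K.comap (QuotientGroup.mk' L) := hy
    rw [h] at h2
    exact (QuotientGroup.eq_one_iff x).2 h2
  · right
    rw [eq_top_iff]
    intro y _
    obtain ⟨x, rfl⟩ := QuotientGroup.mk'_surjective L y
    have h2 : x ∈ K.comap (QuotientGroup.mk' L) := by rw [h]; trivial
    exact h2

end Pool.Agent.P8H25.CSP
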