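import Pool.Agent.P8H25.CSP.Surf

/-!
# Many subgroups of the mapping class group
-/

set_option autoImplicit false

namespace Pool.Agent.P8H25.CSP.Sf

open Subgroup

variable {g : ℕ} (i₀ : Fin g)

section coords

variable {p : ℕ}

/-- the value of a character at a generator, in additive notation -/
def cA (χ : SG g →* Multiplicative (ZMod p)) (i : Fin g) : ZMod p := Multiplicative.toAdd (χ (gen (Sum.inl i)))
/-- the value of a character at a generator, in additive notation -/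
def cB (χ : SG g →* Multiplicative (ZMod p)) (i : Fin g) : ZMod p := Multiplicative.toAdd (χ (gen (Sum.inr i)))

lemma cA_A (χ : SG g →* Multiplicative (ZMod p)) (x : ℤ) (i : Fin g) : cA (χ.comp (hA i₀ x)) i = cA χ i := by
  unfold cA
  rw [MonoidHom.comp_apply, hA_inl]

lemma cB_B (χ : SG g →* Multiplicative (ZMod p)) (x : ℤ) (i : Fin g) : cB (χ.comp (hB i₀ x)) i = cB χ i := by
  unfold cB
  rw [MonoidHom.comp_apply, hB_inr]

lemma cB_A (χ : SG g →* Multiplicative (ZMod p)) (x : ℤ) (i : Fin g) :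
    cB (χ.comp (hA i₀ x)) i = if i = i₀ then cB χ i + x * cA χ i else cB χ i := by
  unfold cB cA
  rw [MonoidHom.comp_apply, hA_inr]
  split_ifs
  · rw [map_mul, map_zpow, toAdd_mul, toAdd_zpow, zsmul_eq_mul]
  · rfl

lemma cA_B (χ : SG g →* Multiplicative (ZMod p)) (x : ℤ) (i : Fin g) :
    cA (χ.comp (hB i₀ x)) i = if i = i₀ then cA χ i + x * cB χ i else cA χ i := by
  unfold cB cA
  rw [MonoidHom.comp_apply, hB_inl]
  split_ifs
  · rw [map_mul, map_zpow, toAdd_mul, toAdd_zpow, zsmul_eq_mul]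
  · rfl

/-- An automorphism acting by the number `e` on the handle, modulo divisors of `e ^ 2 - 1`. -/
def phi (e : ℤ) : MulAut (SG g) :=
  tA i₀ e * (tB i₀ (-e) * (tA i₀ e * (tA i₀ (-1) * (tB i₀ 1 * tA i₀ (-1)))))

lemma signs_iff (φ : MulAut (SG g)) (s : ℤˣ) : Signs i₀ p φ s ↔ ∀ χ : SG g →* Multiplicative (ZMod p),
    (∀ i, cA (χ.comp φ.toMonoidHom) i = if i = i₀ then ((s : ℤ) : ZMod p) * cA χ i else cA χ i) ∧
    (∀ i, cB (χ.comp φ.toMonoidHom) i = if i = i₀ then ((s : ℤ) : ZMod p) * cB χ i else cB χ i) := by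
  unfold Signs
  refine forall_congr' fun χ => and_congr (forall_congr' fun i => ?_) (forall_congr' fun i => ?_)
  · show _ ↔ Multiplicative.toAdd (χ (φ (gen (Sum.inl i)))) = if i = i₀ then ((s : ℤ) : ZMod p) *
      Multiplicative.toAdd (χ (gen (Sum.inl i))) else Multiplicative.toAdd (χ (gen (Sum.inl i)))
    split_ifs
    · rw [← zsmul_eq_mul, ← toAdd_zpow]
      exact Multiplicative.toAdd.injective.eq_iff.symm
    · exact Multiplicative.toAdd.injective.eq_iff.symm
  · show _ ↔ Multiplicative.toAdd (χ (φ (gen (Sum.inr i)))) = if i = i₀ then ((s : ℤ) : ZMod p) *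
      Multiplicative.toAdd (χ (gen (Sum.inr i))) else Multiplicative.toAdd (χ (gen (Sum.inr i)))
    split_ifs
    · rw [← zsmul_eq_mul, ← toAdd_zpow]
      exact Multiplicative.toAdd.injective.eq_iff.symm
    · exact Multiplicative.toAdd.injective.eq_iff.symm

lemma phi_comp (χ : SG g →* Multiplicative (ZMod p)) (e : ℤ) : χ.comp (phi i₀ e).toMonoidHom =
    (((((χ.comp (hA i₀ e)).comp (hB i₀ (-e))).comp (hA i₀ e)).comp (hA i₀ (-1))).comp (hB i₀ 1)).comp
      (hA i₀ (-1)) := rfl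

lemma signs_phi (e : ℤ) (s : ℤˣ) (h : (e : ZMod p) = ((s : ℤ) : ZMod p)) : Signs i₀ p (phi i₀ e) s := by
  rw [signs_iff]
  intro χ
  have hS : ((s : ℤ) : ZMod p) * ((s : ℤ) : ZMod p) = 1 := by
    rw [← Int.cast_mul, ← Units.val_mul, Int.units_mul_self]
    simp
  constructor
  · intro i
    rw [phi_comp]
    by_cases hi : i = i₀
    · simp only [cA_A, cA_B, cB_A, cB_B, hi, if_true]
      push_cast
      rw [h]
      linear_combination (-(cB χ i₀ + ((s : ℤ) : ZMod p) * cA χ i₀)) * hS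
    · simp only [cA_A, cA_B, cB_A, cB_B, hi, if_false]
  · intro i
    rw [phi_comp]
    by_cases hi : i = i₀
    · simp only [cA_A, cA_B, cB_A, cB_B, hi, if_true]
      push_cast
      rw [h]
      linear_combination (cA χ i₀) * hS
    · simp only [cA_A, cA_B, cB_A, cB_B, hi, if_false]

lemma comm_rel {Z : Type} [CommGroup Z] (f : Fin g ⊕ Fin g → Z) :
    (List.ofFn (fun i : Fin g => f (Sum.inl i) * f (Sum.inr i) * (f (Sum.inl i))⁻¹ * (f (Sum.inr i))⁻¹)).prod = 1 := by
  have h1 : (fun i : Fin g => f (Sum.inl i) * f (Sum.inr i) * (f (Sum.inl i))⁻¹ * (f (Sum.inr i))⁻¹) = fun _ => 1 := by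
    funext i
    rw [mul_comm (f (Sum.inl i)), mul_inv_cancel_right, mul_inv_cancel]
  rw [h1, List.prod_ofFn]
  simp

/-- Characters with given values on the generators. -/
def homc {Z : Type} [CommGroup Z] (f : Fin g ⊕ Fin g → Z) : SG g →* Z := hom f (comm_rel f)

lemma homc_gen {Z : Type} [CommGroup Z] (f : Fin g ⊕ Fin g → Z) (c : Fin g ⊕ Fin g) : homc f (gen c) = f c :=
  hom_gen _ _ _

/-- The dual basis of the characters. -/
def dual (p : ℕ) (c : Fin g ⊕ Fin g) : SG g →* Multiplicative (ZMod p) :=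
  homc (Z := Multiplicative (ZMod p)) (fun c' => if c' = c then Multiplicative.ofAdd 1 else 1)

lemma dual_gen (c c' : Fin g ⊕ Fin g) : dual p c (gen c') = if c' = c then Multiplicative.ofAdd 1 else 1 :=
  homc_gen _ _

lemma char_eq [NeZero p] (χ : SG g →* Multiplicative (ZMod p)) (y : SG g) :
    χ y = ∏ c : Fin g ⊕ Fin g, (dual p c y) ^ (Multiplicative.toAdd (χ (gen c))).val := by
  have h : χ = ∏ c : Fin g ⊕ Fin g, (dual p c) ^ (Multiplicative.toAdd (χ (gen c))).val := by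
    apply hom_ext
    intro c'
    rw [MonoidHom.finsetProd_apply]
    simp only [MonoidHom.pow_apply, dual_gen]
    rw [Finset.prod_eq_single c']
    · rw [if_pos rfl]
      apply Multiplicative.toAdd.injective
      rw [toAdd_pow, toAdd_ofAdd, nsmul_eq_mul, mul_one, ZMod.natCast_val, ZMod.cast_id', id]
    · intro c _ hc
      rw [if_neg hc.symm, one_pow]
    · intro h
      exact absurd (Finset.mem_univ _) h
  have h2 := congrArg (fun ψ : SG g →* Multiplicative (ZMod p) => ψ y) h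
  rw [MonoidHom.finsetProd_apply] at h2
  exact h2

lemma signs_unique [hp : Fact p.Prime] (hp2 : p ≠ 2) {φ : MulAut (SG g)} {s t : ℤˣ} (h1 : Signs i₀ p φ s)
    (h2 : Signs i₀ p φ t) : s = t := by
  have h3 := (h1 (dual p (Sum.inl i₀))).1 i₀
  have h4 := (h2 (dual p (Sum.inl i₀))).1 i₀
  rw [if_pos rfl] at h3 h4
  rw [h3, dual_gen, if_pos rfl] at h4
  have h5 := congrArg Multiplicative.toAdd h4
  rw [toAdd_zpow, toAdd_zpow, toAdd_ofAdd, zsmul_eq_mul, zsmul_eq_mul, mul_one, mul_one] at h5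
  have h6 : (2 : ZMod p) ≠ 0 := by
    intro h
    have h7 : ((2 : ℕ) : ZMod p) = 0 := by exact_mod_cast h
    rw [ZMod.natCast_eq_zero_iff] at h7
    exact hp2 ((Nat.prime_dvd_prime_iff_eq hp.out Nat.prime_two).1 h7)
  rcases Int.units_eq_one_or s with rfl | rfl <;> rcases Int.units_eq_one_or t with rfl | rfl
  · rfl
  · exfalso
    apply h6
    push_cast at h5
    linear_combination h5
  · exfalso
    apply h6
    push_cast at h5
    linear_combination -h5
  · rfl

end coords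

section family

variable {ι : Type} [Fintype ι] (p : ι → ℕ)

/-- The matrices of the action of an automorphism on the homology modulo the primes `p i`. -/
noncomputable def mats (φ : MulAut (SG g)) : (i : ι) → Fin g ⊕ Fin g → Fin g ⊕ Fin g → ZMod (p i) :=
  fun i c c' => Multiplicative.toAdd (dual (p i) c (φ (gen c')))

lemma mats_sep (hp : ∀ i, (p i).Prime) (φ ψ : MulAut (SG g)) (h : mats p φ = mats p ψ) (i : ι) :
    Signs i₀ (p i) (φ⁻¹ * ψ) 1 := by
  haveI : NeZero (p i) := ⟨(hp i).ne_zero⟩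
  have h1 : ∀ (χ : SG g →* Multiplicative (ZMod (p i))) (c' : Fin g ⊕ Fin g), χ (φ (gen c')) = χ (ψ (gen c')) := by
    intro χ c'
    rw [char_eq χ (φ (gen c')), char_eq χ (ψ (gen c'))]
    refine Finset.prod_congr rfl fun c _ => ?_
    congr 1
    exact Multiplicative.toAdd.injective (congrFun (congrFun (congrFun h i) c) c')
  have h2 : ∀ (χ : SG g →* Multiplicative (ZMod (p i))) (c' : Fin g ⊕ Fin g),
      χ ((φ⁻¹ * ψ) (gen c')) = χ (gen c') := by
    intro χ c'
    have h3 := h1 (χ.comp φ⁻¹.toMonoidHom) c'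
    change χ (φ⁻¹ (φ (gen c'))) = χ (φ⁻¹ (ψ (gen c'))) at h3
    have h4 : φ⁻¹ (φ (gen c')) = gen c' := MulAut.inv_apply_self (SG g) φ (gen c')
    rw [h4] at h3
    exact h3.symm
  intro χ
  constructor
  · intro i
    rw [h2]
    simp
  · intro i
    rw [h2]
    simp

end family

section many

variable {k : ℕ} (p : Fin k ⊕ Fin k → ℕ)

/-- The signs satisfy the relations given by `m`. -/
def Rels (m : Fin k → Fin k → Bool) (ε : Fin k ⊕ Fin k → ℤˣ) : Prop :=
  ∀ j, ε (Sum.inr j) = ∏ i, (ε (Sum.inl i)) ^ (m i j).toNat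

/-- The subgroups. -/
def HM (m : Fin k → Fin k → Bool) : Subgroup (MulAut (SG g)) where
  carrier := {φ | ∃ ε : Fin k ⊕ Fin k → ℤˣ, Rels m ε ∧ ∀ i, Signs i₀ (p i) φ (ε i)}
  one_mem' := ⟨fun _ => 1, fun j => by simp, fun i => Signs.one i₀ (p i)⟩
  mul_mem' := by
    rintro φ ψ ⟨ε, h1, h2⟩ ⟨δ, h3, h4⟩
    refine ⟨fun i => ε i * δ i, fun j => ?_, fun i => (h2 i).mul i₀ (h4 i)⟩
    show ε (Sum.inr j) * δ (Sum.inr j) = ∏ i, (ε (Sum.inl i) * δ (Sum.inl i)) ^ (m i j).toNat
    rw [h1 j, h3 j, ← Finset.prod_mul_distrib]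
    exact Finset.prod_congr rfl fun i _ => (mul_pow _ _ _).symm
  inv_mem' := by
    rintro φ ⟨ε, h1, h2⟩
    exact ⟨ε, h1, fun i => (h2 i).inv i₀⟩

lemma HM_outer (m : Fin k → Fin k → Bool) : Outer (HM i₀ p m) :=
  fun x => ⟨fun _ => 1, fun j => by simp, fun i => Signs.conj i₀ (p i) x⟩

lemma HM_index (hp : ∀ i, (p i).Prime) (m : Fin k → Fin k → Bool) :
    (HM i₀ p m).index ≠ 0 ∧ (HM i₀ p m).index ≤ (∏ i, p i) ^ ((2 * g) * (2 * g)) := by
  haveI : ∀ i, NeZero (p i) := fun i => ⟨(hp i).ne_zero⟩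
  have hinj : Function.Injective (fun q : MulAut (SG g) ⧸ HM i₀ p m => mats p q.out) := by
    intro q q' hq
    have h1 : (q.out)⁻¹ * q'.out ∈ HM i₀ p m :=
      ⟨fun _ => 1, fun j => by simp, fun i => mats_sep i₀ p hp q.out q'.out hq i⟩
    rw [← QuotientGroup.out_eq' q, ← QuotientGroup.out_eq' q']
    exact QuotientGroup.eq.2 h1
  have hfin : Finite (MulAut (SG g) ⧸ HM i₀ p m) := Finite.of_injective _ hinj
  refine ⟨index_ne_zero_of_finite, ?_⟩
  have h1 := Nat.card_le_card_of_injective _ hinj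
  have h2 : Nat.card ((i : Fin k ⊕ Fin k) → Fin g ⊕ Fin g → Fin g ⊕ Fin g → ZMod (p i)) =
      (∏ i, p i) ^ ((2 * g) * (2 * g)) := by
    have hc : Nat.card (Fin g ⊕ Fin g) = 2 * g := by
      rw [Nat.card_eq_fintype_card, Fintype.card_sum, Fintype.card_fin]
      ring
    rw [Nat.card_pi, ← Finset.prod_pow]
    refine Finset.prod_congr rfl fun i _ => ?_
    rw [Nat.card_fun, Nat.card_fun, Nat.card_zmod, hc, ← pow_mul]
  rw [h2] at h1
  exact h1

lemma crt (hp : ∀ i, (p i).Prime) (hpi : Function.Injective p) (ε : Fin k ⊕ Fin k → ℤˣ) :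
    ∃ e : ℤ, ∀ i, (e : ZMod (p i)) = ((ε i : ℤ) : ZMod (p i)) := by
  classical
  obtain ⟨e, he⟩ := Nat.chineseRemainderOfFinset (fun i => if ε i = 1 then 1 else p i - 1) p Finset.univ
    (fun i _ => (hp i).ne_zero) (fun i _ j _ hij => (Nat.coprime_primes (hp i) (hp j)).2 (fun h => hij (hpi h)))
  refine ⟨e, fun i => ?_⟩
  have h1 := he i (Finset.mem_univ i)
  have h2 := (ZMod.natCast_eq_natCast_iff _ _ _).2 h1
  rw [Int.cast_natCast, h2]
  rcases Int.units_eq_one_or (ε i) with h | h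
  · rw [if_pos h, h]
    simp
  · have h3 : ε i ≠ 1 := by
      rw [h]
      decide
    rw [if_neg h3, h]
    have h4 : 1 ≤ p i := (hp i).one_lt.le
    push_cast [Nat.cast_sub h4]
    simp

lemma HM_injective (hp : ∀ i, (p i).Prime) (hp2 : ∀ i, p i ≠ 2) (hpi : Function.Injective p) :
    Function.Injective (HM i₀ p) := by
  classical
  intro m m' hmm
  funext a j
  -- the signs with one sign `-1` on the left
  let ε : Fin k ⊕ Fin k → ℤˣ := Sum.elim (fun i => if i = a then -1 else 1)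
    (fun j => ∏ i, (if i = a then (-1 : ℤˣ) else 1) ^ (m i j).toNat)
  obtain ⟨e, he⟩ := crt p hp hpi ε
  have h1 : ∀ i, Signs i₀ (p i) (phi i₀ e) (ε i) := fun i => signs_phi i₀ e (ε i) (he i)
  have h2 : phi i₀ e ∈ HM i₀ p m := ⟨ε, fun j => rfl, h1⟩
  rw [hmm] at h2
  obtain ⟨δ, h3, h4⟩ := h2
  have h5 : ∀ i, δ i = ε i := by
    intro i
    haveI : Fact (p i).Prime := ⟨hp i⟩
    exact signs_unique i₀ (hp2 i) (h4 i) (h1 i)
  have h6 := h3 j
  rw [h5] at h6
  have h7 : ∀ n : Fin k → Fin k → Bool, ∏ i, (ε (Sum.inl i)) ^ (n i j).toNat = (-1 : ℤˣ) ^ (n a j).toNat := by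
    intro n
    rw [Finset.prod_eq_single a]
    · show (if a = a then (-1 : ℤˣ) else 1) ^ (n a j).toNat = _
      rw [if_pos rfl]
    · intro i _ hi
      show (if i = a then (-1 : ℤˣ) else 1) ^ (n i j).toNat = _
      rw [if_neg hi, one_pow]
    · intro h
      exact absurd (Finset.mem_univ _) h
  have h8 : ε (Sum.inr j) = (-1 : ℤˣ) ^ (m a j).toNat := h7 m
  have h9 : ∏ i, (δ (Sum.inl i)) ^ (m' i j).toNat = (-1 : ℤˣ) ^ (m' a j).toNat := by
    rw [← h7 m']
    exact Finset.prod_congr rfl fun i _ => by rw [h5]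
  rw [h8, h9] at h6
  cases hm : m a j <;> cases hm' : m' a j <;> rw [hm, hm'] at h6 <;> first | rfl | (exfalso; revert h6; decide)

end many

/-- **The number of the subgroups.** -/
theorem many {g k : ℕ} (i₀ : Fin g) (p : Fin k ⊕ Fin k → ℕ) (hp : ∀ i, (p i).Prime) (hp2 : ∀ i, p i ≠ 2) (hpi : Function.Injective p) (n : ℕ)
    (hn : (∏ i, p i) ^ ((2 * g) * (2 * g)) ≤ n) : ((2 ^ (k * k) : ℕ) : ℕ∞) ≤ subs (SG g) n := by
  classical
  have h1 : Set.range (HM i₀ p) ⊆ {H : Subgroup (MulAut (SG g)) | Outer H ∧ H.index ≠ 0 ∧ H.index ≤ n} := by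
    rintro _ ⟨m, rfl⟩
    exact ⟨HM_outer i₀ p m, (HM_index i₀ p hp m).1, (HM_index i₀ p hp m).2.trans hn⟩
  refine le_trans ?_ (Set.encard_le_encard h1)
  rw [← Set.image_univ, (HM_injective i₀ p hp hp2 hpi).encard_image, Set.encard_univ,
    ENat.card_eq_coe_natCard, Nat.card_fun, Nat.card_fun]
  simp only [Nat.card_eq_fintype_card, Fintype.card_fin, Fintype.card_bool]
  rw [pow_mul]

end Pool.Agent.P8H25.CSP.Sf
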