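import Pool.Agent.P8H25.CSP.Out

/-!
# Automorphisms of surface groups acting by signs on the homology of a handle modulo many primes
-/

set_option autoImplicit false

namespace Pool.Agent.P8H25.CSP.Sf

open Subgroup

/-- The relator of the surface group. -/
def rel (g : ℕ) : FreeGroup (Fin g ⊕ Fin g) :=
  (List.ofFn (fun i : Fin g =>
        FreeGroup.of (Sum.inl i : Fin g ⊕ Fin g) *
        FreeGroup.of (Sum.inr i : Fin g ⊕ Fin g) *
        (FreeGroup.of (Sum.inl i : Fin g ⊕ Fin g))⁻¹ *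
        (FreeGroup.of (Sum.inr i : Fin g ⊕ Fin g))⁻¹)).prod

/-- The surface group. -/
abbrev SG (g : ℕ) : Type := PresentedGroup ({rel g} : Set (FreeGroup (Fin g ⊕ Fin g)))

/-- The standard generators. -/
def gen {g : ℕ} (c : Fin g ⊕ Fin g) : SG g := PresentedGroup.of c

lemma lift_rel {g : ℕ} {H : Type} [Group H] (f : Fin g ⊕ Fin g → H) :
    FreeGroup.lift f (rel g) =
      (List.ofFn (fun i : Fin g => f (Sum.inl i) * f (Sum.inr i) * (f (Sum.inl i))⁻¹ * (f (Sum.inr i))⁻¹)).prod := by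
  rw [rel, map_list_prod, List.map_ofFn]
  congr 2
  funext i
  simp

lemma gen_rel (g : ℕ) :
    (List.ofFn (fun i : Fin g => (gen (Sum.inl i) : SG g) * gen (Sum.inr i) * (gen (Sum.inl i))⁻¹ *
      (gen (Sum.inr i))⁻¹)).prod = 1 := by
  rw [← lift_rel (fun c => (gen c : SG g))]
  have h1 : FreeGroup.lift (fun c => (gen c : SG g)) = (PresentedGroup.mk ({rel g} : Set (FreeGroup (Fin g ⊕ Fin g)))) := by
    ext c
    simp [gen, PresentedGroup.of]
  rw [h1]
  exact PresentedGroup.one_of_mem rfl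

/-- The homomorphism from the surface group given by its values on the generators. -/
def hom {g : ℕ} {H : Type} [Group H] (f : Fin g ⊕ Fin g → H)
    (h : (List.ofFn (fun i : Fin g => f (Sum.inl i) * f (Sum.inr i) * (f (Sum.inl i))⁻¹ * (f (Sum.inr i))⁻¹)).prod = 1) :
    SG g →* H :=
  PresentedGroup.toGroup (rels := ({rel g} : Set (FreeGroup (Fin g ⊕ Fin g)))) (f := f) (by
    rintro _ rfl
    rw [lift_rel]
    exact h)

lemma hom_gen {g : ℕ} {H : Type} [Group H] (f : Fin g ⊕ Fin g → H) (h) (c : Fin g ⊕ Fin g) :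
    hom f h (gen c) = f c := PresentedGroup.toGroup.of _

lemma hom_ext {g : ℕ} {H : Type} [Group H] {φ ψ : SG g →* H} (h : ∀ c, φ (gen c) = ψ (gen c)) : φ = ψ :=
  PresentedGroup.ext h

section twists

variable {g : ℕ} (i₀ : Fin g)

/-- The images of the generators under the power `x` of the twist about `a`. -/
def fA (x : ℤ) : Fin g ⊕ Fin g → SG g
  | Sum.inl i => gen (Sum.inl i)
  | Sum.inr i => if i = i₀ then gen (Sum.inr i) * gen (Sum.inl i) ^ x else gen (Sum.inr i)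

/-- The images of the generators under the power `x` of the twist about `b`. -/
def fB (x : ℤ) : Fin g ⊕ Fin g → SG g
  | Sum.inl i => if i = i₀ then gen (Sum.inl i) * gen (Sum.inr i) ^ x else gen (Sum.inl i)
  | Sum.inr i => gen (Sum.inr i)

lemma fA_rel (x : ℤ) : (List.ofFn (fun i : Fin g => fA i₀ x (Sum.inl i) * fA i₀ x (Sum.inr i) *
    (fA i₀ x (Sum.inl i))⁻¹ * (fA i₀ x (Sum.inr i))⁻¹)).prod = 1 := by
  rw [← gen_rel g]
  congr 2
  funext i
  show gen (Sum.inl i) * (if i = i₀ then gen (Sum.inr i) * gen (Sum.inl i) ^ x else gen (Sum.inr i)) *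
    (gen (Sum.inl i))⁻¹ * (if i = i₀ then gen (Sum.inr i) * gen (Sum.inl i) ^ x else gen (Sum.inr i))⁻¹ = _
  split_ifs
  · have : (gen (Sum.inl i) : SG g) ^ x * (gen (Sum.inl i))⁻¹ = (gen (Sum.inl i))⁻¹ * gen (Sum.inl i) ^ x := by
      rw [← zpow_neg_one, ← zpow_add, ← zpow_add, add_comm]
    rw [mul_inv_rev]
    calc (gen (Sum.inl i) : SG g) * (gen (Sum.inr i) * gen (Sum.inl i) ^ x) * (gen (Sum.inl i))⁻¹ *
          ((gen (Sum.inl i) ^ x)⁻¹ * (gen (Sum.inr i))⁻¹)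
        = gen (Sum.inl i) * gen (Sum.inr i) * (gen (Sum.inl i) ^ x * (gen (Sum.inl i))⁻¹) *
          (gen (Sum.inl i) ^ x)⁻¹ * (gen (Sum.inr i))⁻¹ := by simp only [mul_assoc]
      _ = _ := by rw [this]; simp only [mul_assoc, mul_inv_cancel_left]
  · rfl

lemma fB_rel (x : ℤ) : (List.ofFn (fun i : Fin g => fB i₀ x (Sum.inl i) * fB i₀ x (Sum.inr i) *
    (fB i₀ x (Sum.inl i))⁻¹ * (fB i₀ x (Sum.inr i))⁻¹)).prod = 1 := by
  rw [← gen_rel g]
  congr 2
  funext i
  show (if i = i₀ then gen (Sum.inl i) * gen (Sum.inr i) ^ x else gen (Sum.inl i)) * gen (Sum.inr i) *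
    (if i = i₀ then gen (Sum.inl i) * gen (Sum.inr i) ^ x else gen (Sum.inl i))⁻¹ * (gen (Sum.inr i))⁻¹ = _
  split_ifs
  · have : (gen (Sum.inr i) : SG g) ^ x * gen (Sum.inr i) = gen (Sum.inr i) * gen (Sum.inr i) ^ x := by
      rw [← zpow_add_one, ← zpow_one_add, add_comm]
    rw [mul_inv_rev]
    calc (gen (Sum.inl i) : SG g) * gen (Sum.inr i) ^ x * gen (Sum.inr i) *
          ((gen (Sum.inr i) ^ x)⁻¹ * (gen (Sum.inl i))⁻¹) * (gen (Sum.inr i))⁻¹
        = gen (Sum.inl i) * (gen (Sum.inr i) ^ x * gen (Sum.inr i)) *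
          (gen (Sum.inr i) ^ x)⁻¹ * (gen (Sum.inl i))⁻¹ * (gen (Sum.inr i))⁻¹ := by simp only [mul_assoc]
      _ = _ := by rw [this]; simp only [mul_assoc, mul_inv_cancel_left]
  · rfl

/-- The power `x` of the twist about `a`, as an endomorphism. -/
def hA (x : ℤ) : SG g →* SG g := hom (fA i₀ x) (fA_rel i₀ x)

/-- The power `x` of the twist about `b`, as an endomorphism. -/
def hB (x : ℤ) : SG g →* SG g := hom (fB i₀ x) (fB_rel i₀ x)

lemma hA_inl (x : ℤ) (i : Fin g) : hA i₀ x (gen (Sum.inl i)) = gen (Sum.inl i) := hom_gen _ _ _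
lemma hA_inr (x : ℤ) (i : Fin g) : hA i₀ x (gen (Sum.inr i)) =
    if i = i₀ then gen (Sum.inr i) * gen (Sum.inl i) ^ x else gen (Sum.inr i) := hom_gen _ _ _
lemma hB_inr (x : ℤ) (i : Fin g) : hB i₀ x (gen (Sum.inr i)) = gen (Sum.inr i) := hom_gen _ _ _
lemma hB_inl (x : ℤ) (i : Fin g) : hB i₀ x (gen (Sum.inl i)) =
    if i = i₀ then gen (Sum.inl i) * gen (Sum.inr i) ^ x else gen (Sum.inl i) := hom_gen _ _ _

lemma hA_comp (x : ℤ) : (hA i₀ x).comp (hA i₀ (-x)) = MonoidHom.id (SG g) := by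
  apply hom_ext
  rintro (i | i)
  · rw [MonoidHom.comp_apply, hA_inl, hA_inl, MonoidHom.id_apply]
  · rw [MonoidHom.comp_apply, hA_inr, MonoidHom.id_apply]
    split_ifs with h
    · rw [map_mul, map_zpow, hA_inl, hA_inr, if_pos h, mul_assoc, ← zpow_add, add_neg_cancel, zpow_zero, mul_one]
    · rw [hA_inr, if_neg h]

lemma hB_comp (x : ℤ) : (hB i₀ x).comp (hB i₀ (-x)) = MonoidHom.id (SG g) := by
  apply hom_ext
  rintro (i | i)
  · rw [MonoidHom.comp_apply, hB_inl, MonoidHom.id_apply]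
    split_ifs with h
    · rw [map_mul, map_zpow, hB_inr, hB_inl, if_pos h, mul_assoc, ← zpow_add, add_neg_cancel, zpow_zero, mul_one]
    · rw [hB_inl, if_neg h]
  · rw [MonoidHom.comp_apply, hB_inr, hB_inr, MonoidHom.id_apply]

/-- The power `x` of the twist about `a`. -/
def tA (x : ℤ) : MulAut (SG g) :=
  MonoidHom.toMulEquiv (hA i₀ x) (hA i₀ (-x)) (by
    have := hA_comp i₀ (-x)
    rwa [neg_neg] at this) (hA_comp i₀ x)

/-- The power `x` of the twist about `b`. -/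
def tB (x : ℤ) : MulAut (SG g) :=
  MonoidHom.toMulEquiv (hB i₀ x) (hB i₀ (-x)) (by
    have := hB_comp i₀ (-x)
    rwa [neg_neg] at this) (hB_comp i₀ x)

lemma tA_apply (x : ℤ) (y : SG g) : tA i₀ x y = hA i₀ x y := rfl
lemma tB_apply (x : ℤ) (y : SG g) : tB i₀ x y = hB i₀ x y := rfl

/-- The automorphism acts on all characters with values in the group `Z` by the sign `s` on the handle
`i₀` and trivially on the other handles. -/
def Signs (p : ℕ) (φ : MulAut (SG g)) (s : ℤˣ) : Prop :=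
  ∀ χ : SG g →* Multiplicative (ZMod p),
    (∀ i, χ (φ (gen (Sum.inl i))) = if i = i₀ then χ (gen (Sum.inl i)) ^ (s : ℤ) else χ (gen (Sum.inl i))) ∧
    (∀ i, χ (φ (gen (Sum.inr i))) = if i = i₀ then χ (gen (Sum.inr i)) ^ (s : ℤ) else χ (gen (Sum.inr i)))

lemma Signs.one (p : ℕ) : Signs i₀ p 1 1 := by
  intro χ
  constructor <;> intro i <;> simp

lemma Signs.mul {p : ℕ} {φ ψ : MulAut (SG g)} {s t : ℤˣ} (h1 : Signs i₀ p φ s) (h2 : Signs i₀ p ψ t) :
    Signs i₀ p (φ * ψ) (s * t) := by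
  intro χ
  have h3 := h2 (χ.comp φ.toMonoidHom)
  have h4 := h1 χ
  constructor
  · intro i
    have h5 := h3.1 i
    have h6 := h4.1 i
    change χ (φ (ψ (gen (Sum.inl i)))) = if i = i₀ then χ (φ (gen (Sum.inl i))) ^ (t : ℤ) else χ (φ (gen (Sum.inl i))) at h5
    show χ (φ (ψ (gen (Sum.inl i)))) = _
    rw [h5, h6]
    split_ifs
    · rw [← zpow_mul, Units.val_mul]
    · rfl
  · intro i
    have h5 := h3.2 i
    have h6 := h4.2 i
    change χ (φ (ψ (gen (Sum.inr i)))) = if i = i₀ then χ (φ (gen (Sum.inr i))) ^ (t : ℤ) else χ (φ (gen (Sum.inr i))) at h5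
    show χ (φ (ψ (gen (Sum.inr i)))) = _
    rw [h5, h6]
    split_ifs
    · rw [← zpow_mul, Units.val_mul]
    · rfl

lemma zpow_sign_sign {Z : Type} [Group Z] (z : Z) (s : ℤˣ) : (z ^ (s : ℤ)) ^ (s : ℤ) = z := by
  rw [← zpow_mul, ← Units.val_mul, Int.units_mul_self, Units.val_one, zpow_one]

lemma Signs.inv {p : ℕ} {φ : MulAut (SG g)} {s : ℤˣ} (h1 : Signs i₀ p φ s) : Signs i₀ p φ⁻¹ s := by
  intro χ
  have h2 := h1 (χ.comp φ⁻¹.toMonoidHom)
  have h0 : ∀ y, φ⁻¹ (φ y) = y := fun y => MulAut.inv_apply_self (SG g) φ y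
  constructor
  · intro i
    have h3 := h2.1 i
    change χ (φ⁻¹ (φ (gen (Sum.inl i)))) = if i = i₀ then χ (φ⁻¹ (gen (Sum.inl i))) ^ (s : ℤ) else χ (φ⁻¹ (gen (Sum.inl i))) at h3
    rw [h0] at h3
    split_ifs at h3 ⊢ with h
    · rw [h3, zpow_sign_sign]
    · exact h3.symm
  · intro i
    have h3 := h2.2 i
    change χ (φ⁻¹ (φ (gen (Sum.inr i)))) = if i = i₀ then χ (φ⁻¹ (gen (Sum.inr i))) ^ (s : ℤ) else χ (φ⁻¹ (gen (Sum.inr i))) at h3
    rw [h0] at h3
    split_ifs at h3 ⊢ with h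
    · rw [h3, zpow_sign_sign]
    · exact h3.symm

lemma Signs.conj (p : ℕ) (x : SG g) : Signs i₀ p (MulAut.conj x) 1 := by
  intro χ
  have h : ∀ y : SG g, χ (MulAut.conj x y) = χ y := by
    intro y
    rw [MulAut.conj_apply, map_mul, map_mul, map_inv, mul_comm (χ x), mul_assoc, mul_inv_cancel, mul_one]
  constructor <;> intro i <;> simp [h]

end twists

end Pool.Agent.P8H25.CSP.Sf
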